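import Pool.Agent.H719R3.BA.PlatA
import Pool.Agent.H719R3.BK.Global

/-!
# Constant ratios for univalent polynomials
-/

open Finset Polynomial

namespace Pool.Agent.H719R3.BA

open Pool.Agent.H719R3.BK

variable {K : Type*} [Field K] {φ : ℂ →+* K} {R R' : ℂ[X]} {n : ℕ} {t : ℤ → K}

section val

variable {Γ₀ : Type*} [LinearOrderedCommGroupWithZero Γ₀] {w : Valuation K Γ₀}

/-- Residues of solutions of `s G s ≡ d`. -/
lemma FF_root (hφ : ∀ c : ℂ, c ≠ 0 → w (φ c) = 1) {N : ℕ} (hN : 2 ≤ N) {s : K} {d : ℂ}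
    (h : w (s * BK.GG N s - φ d) < 1) : ∃ c : ℂ, w (s - φ c) < 1 ∧ c * BK.GG N c = d := by
  set p : ℂ[X] := X * ∑ i ∈ range N, X ^ i with hp
  have hsum : (∑ i ∈ range N, (X : ℂ[X]) ^ i) ≠ 0 := by
    intro h0
    have h1 := congrArg (eval (1 : ℂ)) h0
    rw [eval_finsetSum, eval_zero] at h1
    simp only [eval_pow, eval_X, one_pow, sum_const, card_range, nsmul_eq_mul, mul_one] at h1
    have : N = 0 := by exact_mod_cast h1
    omega
  have hdeg : 1 ≤ p.natDegree := by
    rw [hp, natDegree_X_mul hsum]; omega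
  have e1 : p.eval₂ φ s = s * BK.GG N s := by
    rw [hp, eval₂_mul, eval₂_X, eval₂_finsetSum]
    unfold BK.GG
    congr 1
    exact sum_congr rfl fun i _ => eval₂_X_pow φ s
  obtain ⟨c, hc, hc2⟩ := root_value hφ hdeg (s := s) (d := d) (by rw [e1]; exact h)
  refine ⟨c, hc2, ?_⟩
  rw [← hc, hp, eval_mul, eval_X, eval_finsetSum]
  unfold BK.GG
  congr 1
  exact sum_congr rfl fun i _ => by rw [eval_pow, eval_X]

lemma FF_norm_le {N : ℕ} {c : ℂ} (hc : ‖c‖ ≤ 1) : ‖c * BK.GG N c‖ ≤ N := by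
  rw [norm_mul]
  calc ‖c‖ * ‖BK.GG N c‖ ≤ 1 * N := by gcongr; exact GG_norm_le hc
    _ = N := one_mul _

lemma FF_norm_lt {N : ℕ} (hN : 2 ≤ N) {c : ℂ} (hc : ‖c‖ < 1) : ‖c * BK.GG N c‖ < N := by
  rw [norm_mul]
  calc ‖c‖ * ‖BK.GG N c‖ ≤ 1 * ‖BK.GG N c‖ := by gcongr
    _ = ‖BK.GG N c‖ := one_mul _
    _ < N := GG_norm_lt hN hc

lemma FF_cong (hφ : ∀ c : ℂ, c ≠ 0 → w (φ c) = 1) {N : ℕ} {s : K} {c : ℂ} (hs : w (s - φ c) < 1) :
    w (s * BK.GG N s - φ (c * BK.GG N c)) < 1 := by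
  rw [map_mul]
  exact cong_mul hs (GG_cong hφ hs) (wphi_le hφ c) (wphi_le hφ _)

/-- Close constants are equal. -/
lemma const_eq (hφ : ∀ c : ℂ, c ≠ 0 → w (φ c) = 1) {c d : ℂ} (h : w (φ c - φ d) < 1) : c = d := by
  by_contra hcon
  rw [← map_sub, hφ _ (sub_ne_zero.2 hcon)] at h
  exact lt_irrefl _ h

/-- One step backwards. -/
lemma back (hφ : ∀ c : ℂ, c ≠ 0 → w (φ c) = 1) (hR : Univ R) (hR' : Univ R')
    (H : ChainA φ R R' n t) {k : ℤ} (hρ : 1 < w (t k)) (hB : ∀ i, w (t i) ≤ w (t k)) {d : ℂ}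
    (hd : ‖d‖ < R.natDegree) (hf : w (ff w R.natDegree (t k) (t (k + 1)) - φ d) < 1) :
    w (t (k - 1)) = w (t k) ∧ ∃ d' : ℂ, ‖d'‖ < R.natDegree ∧
      w (ff w R.natDegree (t (k - 1)) (t k) - φ d') < 1 := by
  have hN := hR.deg
  obtain ⟨h1, h2, h3⟩ := max_lawA hφ hR hR' H hρ hB
  set N := R.natDegree with hNdef
  have hx0' : 0 < w (t k) := lt_trans zero_lt_one hρ
  have hNpos : (0 : ℝ) < N := by exact_mod_cast (by omega : 0 < N)
  have hNC : (N : ℂ) ≠ 0 := by exact_mod_cast (by omega : N ≠ 0)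
  have hN1 : (1 : ℝ) < N := by exact_mod_cast (by omega : 1 < N)
  set fm := ff w N (t k) (t (k - 1)) with hfm
  set fp := ff w N (t k) (t (k + 1)) with hfp
  have hfm1 : w fm ≤ 1 := by
    rw [hfm]; unfold ff
    split_ifs with h
    · rw [Valuation.map_neg, map_one]
    · have h4 : w (t (k - 1) / t k) ≤ 1 := by
        rw [map_div₀]; exact (div_le_one₀ hx0').2 (hB _)
      rw [map_mul]
      exact mul_le_one' h4 (GG_le h4)
  have h4 := mul_cong_of_le hfm1 hf
  have h5 : w (fm * φ d - φ ((N : ℂ) ^ 2)) < 1 := by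
    have e : fm * φ d - φ ((N : ℂ) ^ 2) = (fm * fp - φ ((N : ℂ) ^ 2)) - (fm * fp - fm * φ d) := by
      ring
    rw [e]
    exact Valuation.map_sub_lt w h3 h4
  have hd0 : d ≠ 0 := by
    rintro rfl
    rw [map_zero, mul_zero, zero_sub, Valuation.map_neg, hφ _ (pow_ne_zero _ hNC)] at h5
    exact lt_irrefl _ h5
  set e := (N : ℂ) ^ 2 / d with he
  have h6 : w (fm - φ e) < 1 := by
    have e1 : fm * φ d - φ ((N : ℂ) ^ 2) = φ d * (fm - φ e) := by
      have : φ ((N : ℂ) ^ 2) = φ d * φ e := by rw [← map_mul, he, mul_div_cancel₀ _ hd0]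
      rw [this]; ring
    rw [e1, map_mul, hφ _ hd0, one_mul] at h5
    exact h5
  have hen : (N : ℝ) < ‖e‖ := by
    rw [he, norm_div, norm_pow, Complex.norm_natCast, lt_div_iff₀ (norm_pos_iff.2 hd0)]
    nlinarith
  have hne1 : w (t (k - 1)) ≠ 1 := by
    intro h
    have h7 : fm = φ (-1) := by rw [hfm]; unfold ff; rw [if_pos h, map_neg, map_one]
    rw [h7] at h6
    have h8 := const_eq hφ h6
    rw [← h8, norm_neg, norm_one] at hen
    linarith
  have heq : w (t (k - 1)) = w (t k) := h1.resolve_left hne1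
  refine ⟨heq, ?_⟩
  have h7 : fm = t (k - 1) / t k * BK.GG N (t (k - 1) / t k) := by
    rw [hfm]; unfold ff; rw [if_neg hne1]
  rw [h7] at h6
  obtain ⟨c, hc1, hc2⟩ := FF_root hφ hN h6
  have hcn : 1 < ‖c‖ := by
    by_contra hcon
    push Not at hcon
    have := FF_norm_le (N := N) hcon
    rw [hc2] at this
    linarith
  have hc0 : c ≠ 0 := by
    rintro rfl
    rw [norm_zero] at hcn
    linarith
  have hs1 : w (t (k - 1) / t k) = 1 := wadd_eq hc1 (hφ _ hc0)
  have hinv : w (t k / t (k - 1) - φ c⁻¹) < 1 := by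
    have hne1 := H.ne (k - 1)
    have hne2 := H.ne k
    have hφc : φ c ≠ 0 := (map_ne_zero φ).2 hc0
    have e : t k / t (k - 1) - φ c⁻¹ =
        -((t (k - 1) / t k - φ c) / (t (k - 1) / t k * φ c)) := by
      rw [map_inv₀]
      field_simp
      ring
    rw [e, Valuation.map_neg, map_div₀, map_mul, hs1, hφ _ hc0, one_mul, div_one]
    exact hc1
  refine ⟨c⁻¹ * BK.GG N c⁻¹, FF_norm_lt hN ?_, ?_⟩
  · rw [norm_inv]; exact inv_lt_one_of_one_lt₀ hcn
  · have h8 : ff w N (t (k - 1)) (t k) = t k / t (k - 1) * BK.GG N (t k / t (k - 1)) := by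
      unfold ff; rw [if_neg hρ.ne']
    rw [h8]
    exact FF_cong hφ hinv

/-- The plateau theorem near infinity. -/
theorem plateau_auxA (hφ : ∀ c : ℂ, c ≠ 0 → w (φ c) = 1) (hR : Univ R) (hR' : Univ R')
    (H : ChainA φ R R' n t) {j : ℤ} (hρ : 1 < w (t j))
    (hB : ∀ i, w (t i) ≤ w (t j)) (i : ℤ) : w (t i) = w (t j) := by
  have hN := hR.deg
  have hN1 : (1 : ℝ) < R.natDegree := by exact_mod_cast (by omega : 1 < R.natDegree)
  have key : ∀ k : ℤ, w (t k) = w (t j) → w (t (k + 1)) ≠ w (t j) → False := by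
    intro k hk hk1
    have hback : ∀ m : ℕ, w (t (k - m)) = w (t j) ∧ ∃ d : ℂ, ‖d‖ < R.natDegree ∧
        w (ff w R.natDegree (t (k - m)) (t (k - m + 1)) - φ d) < 1 := by
      intro m
      induction m with
      | zero =>
        rw [Nat.cast_zero, sub_zero]
        refine ⟨hk, -1, by rw [norm_neg, norm_one]; exact hN1, ?_⟩
        obtain ⟨-, h2, -⟩ := max_lawA hφ hR hR' H (j := k) (by rw [hk]; exact hρ)
          (by rw [hk]; exact hB)
        rw [hk] at h2
        have h3 := h2.resolve_right hk1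
        have h4 : ff w R.natDegree (t k) (t (k + 1)) = -1 := by unfold ff; rw [if_pos h3]
        rw [h4, map_neg, map_one, sub_self, map_zero]
        exact zero_lt_one
      | succ m ih =>
        obtain ⟨h1, d, hd, h2⟩ := ih
        have h3 := back hφ hR hR' H (k := k - m) (by rw [h1]; exact hρ)
          (by rw [h1]; exact hB) hd h2
        push_cast
        rw [show k - ((m : ℤ) + 1) = k - m - 1 by ring, sub_add_cancel]
        exact ⟨h3.1.trans h1, h3.2⟩
    have hn := H.hn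
    have h6 := (hback (n - 1)).1
    have h7 : k + 1 = (k - ((n - 1 : ℕ) : ℤ)) + n := by
      rw [Nat.cast_sub hn]; push_cast; ring
    rw [h7, H.per] at hk1
    exact hk1 h6
  have hall : ∀ m : ℕ, w (t (j + m)) = w (t j) := by
    intro m
    induction m with
    | zero => rw [Nat.cast_zero, add_zero]
    | succ m ih =>
      push_cast
      rw [← add_assoc]
      by_contra h
      exact key _ ih h
  have hper : ∀ (q : ℕ) (i : ℤ), t (i + q * n) = t i := by
    intro q
    induction q with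
    | zero => intro i; simp
    | succ q ih =>
      intro i
      push_cast
      rw [show i + ((q : ℤ) + 1) * n = (i + q * n) + n by ring, H.per, ih]
  set q : ℕ := (j - i).toNat with hq
  have h8 : j ≤ i + q * n := by
    have h9 : j - i ≤ q := by rw [hq]; exact Int.self_le_toNat _
    have h10 : (q : ℤ) * 1 ≤ q * n := by
      apply mul_le_mul_of_nonneg_left _ (by positivity)
      have := H.hn
      omega
    linarith
  obtain ⟨m, hm⟩ := Int.eq_ofNat_of_zero_le (sub_nonneg.2 h8)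
  have h9 := hall m
  rw [show j + (m : ℤ) = i + q * n by rw [← hm]; ring, hper] at h9
  exact h9

lemma plateau_half (hφ : ∀ c : ℂ, c ≠ 0 → w (φ c) = 1) (hR : Univ R) (hR' : Univ R')
    (H : ChainA φ R R' n t) {i₀ : ℤ} (h0 : 1 < w (t i₀)) (i k : ℤ) : w (t i) = w (t k) := by
  have hper : ∀ (q : ℕ) (i : ℤ), t (i + q * n) = t i := by
    intro q
    induction q with
    | zero => intro i; simp
    | succ q ih =>
      intro i
      push_cast
      rw [show i + ((q : ℤ) + 1) * n = (i + q * n) + n by ring, H.per, ih]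
  have hn := H.hn
  obtain ⟨j, hj, hmax⟩ := exists_max_image (range n) (fun j : ℕ => w (t j))
    ⟨0, mem_range.2 hn⟩
  have hmax' : ∀ i : ℤ, w (t i) ≤ w (t j) := by
    intro i
    have hn' : (0 : ℤ) < n := by exact_mod_cast hn
    have h1 : t i = t (i % n) := by
      have h2 := Int.emod_add_mul_ediv i n
      rcases le_total 0 (i / n) with h | h
      · obtain ⟨q, hq⟩ := Int.eq_ofNat_of_zero_le h
        rw [hq] at h2
        conv_lhs => rw [← h2]
        rw [show i % n + n * (q : ℤ) = i % n + q * n by ring]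
        exact hper q _
      · obtain ⟨q, hq⟩ := Int.eq_ofNat_of_zero_le (neg_nonneg.2 h)
        have h3 : i / n = -(q : ℤ) := by omega
        rw [h3] at h2
        have h4 : i % n = i + q * n := by linarith
        rw [h4, hper]
    rw [h1]
    have h3 := Int.emod_nonneg i hn'.ne'
    have h4 := Int.emod_lt_of_pos i hn'
    obtain ⟨m, hm⟩ := Int.eq_ofNat_of_zero_le h3
    rw [hm]
    exact hmax m (mem_range.2 (by omega))
  have hgt : 1 < w (t (j : ℤ)) := h0.trans_le (hmax' i₀)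
  rw [plateau_auxA hφ hR hR' H hgt hmax' i, plateau_auxA hφ hR hR' H hgt hmax' k]

/-- The plateau theorem. -/
theorem plateauA (hφ : ∀ c : ℂ, c ≠ 0 → w (φ c) = 1) (hR : Univ R) (hR' : Univ R')
    (H : ChainA φ R R' n t) {i₀ : ℤ} (h0 : w (t i₀) ≠ 1) (i k : ℤ) : w (t i) = w (t k) := by
  rcases lt_or_gt_of_ne h0 with h | h
  · have h1 : 1 < w ((t i₀)⁻¹) := by
      rw [map_inv₀]
      exact (one_lt_inv₀ (pos H i₀)).2 h
    have h2 := plateau_half hφ hR' hR H.inv h1 i k
    rw [map_inv₀, map_inv₀] at h2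
    exact inv_injective h2
  · exact plateau_half hφ hR hR' H h i k

end val

theorem chain_ratioA (hR : Univ R) (hR' : Univ R') (H : ChainA φ R R' n t) (j : ℤ) :
    ∃ c : ℂ, t j = φ c * t 0 := by
  by_contra hcon
  push Not at hcon
  have hne0 := H.ne 0
  have hX : ∀ c, t j / t 0 ≠ φ c := by
    intro c hc
    apply hcon c
    rw [← hc, div_mul_cancel₀ _ hne0]
  obtain ⟨V, hφ, hV⟩ := Pool.Agent.H719R2.PIR.exists_place φ hX 0
  rw [map_zero, sub_zero, map_div₀] at hV
  have hpos : 0 < V.valuation (t 0) := zero_lt_iff.2 ((Valuation.ne_zero_iff _).2 hne0)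
  have hlt : V.valuation (t j) < V.valuation (t 0) := (div_lt_one₀ hpos).1 hV
  by_cases h1 : V.valuation (t 0) = 1
  · have h2 : V.valuation (t j) ≠ 1 := by rw [← h1]; exact hlt.ne
    exact hlt.ne (plateauA hφ hR hR' H h2 j 0)
  · exact hlt.ne (plateauA hφ hR hR' H h1 j 0)

theorem chain_constA (hR : Univ R) (hR' : Univ R') (H : ChainA φ R R' n t)
    (ht : ∀ c, t 0 ≠ φ c) {l : ℤ → ℂ} (hl : ∀ j, t j = φ (l j) * t 0) (j : ℤ) :
    (l j / l (j - 1) * BK.GG R'.natDegree (l j / l (j - 1))) *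
      (l j / l (j + 1) * BK.GG R'.natDegree (l j / l (j + 1))) = (R'.natDegree : ℂ) ^ 2 := by
  have hne0 := H.ne 0
  have hl0 : ∀ j, l j ≠ 0 := by
    intro j h
    have := H.ne j
    rw [hl j, h, map_zero, zero_mul] at this
    exact this rfl
  obtain ⟨V, hφ, hV⟩ := Pool.Agent.H719R2.PIR.exists_place φ ht 0
  rw [map_zero, sub_zero] at hV
  have hpos : 0 < V.valuation (t 0) := zero_lt_iff.2 ((Valuation.ne_zero_iff _).2 hne0)
  have hval : ∀ i, V.valuation (t i) = V.valuation (t 0) := by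
    intro i
    rw [hl i, map_mul, hφ _ (hl0 i), one_mul]
  have hgt : 1 < V.valuation ((t j)⁻¹) := by
    rw [map_inv₀, hval j]
    exact (one_lt_inv₀ hpos).2 hV
  have hB : ∀ i, V.valuation ((t i)⁻¹) ≤ V.valuation ((t j)⁻¹) := by
    intro i
    rw [map_inv₀, map_inv₀, hval i, hval j]
  obtain ⟨-, -, key⟩ := max_lawA hφ hR' hR H.inv (j := j) hgt hB
  have hne1 : ∀ i, V.valuation ((t i)⁻¹) ≠ 1 := by
    intro i
    rw [map_inv₀, hval i, ← hval j, ← map_inv₀]
    exact hgt.ne'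
  have hff : ∀ i, ff V.valuation R'.natDegree (t j)⁻¹ (t i)⁻¹ =
      φ (l j / l i * BK.GG R'.natDegree (l j / l i)) := by
    intro i
    unfold ff
    rw [if_neg (hne1 i)]
    have e : (t i)⁻¹ / (t j)⁻¹ = φ (l j / l i) := by
      rw [hl i, hl j, map_div₀]
      have h1 : φ (l i) ≠ 0 := (map_ne_zero φ).2 (hl0 i)
      have h2 : φ (l j) ≠ 0 := (map_ne_zero φ).2 (hl0 j)
      field_simp
    rw [e, GG_map, map_mul]
  rw [hff, hff, ← map_mul] at key
  exact const_eq hφ key

end Pool.Agent.H719R3.BA
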