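import Pool.Agent.H719R3.BA.StateA

/-!
# The plateau theorem for univalent polynomials
-/

open Finset Polynomial

namespace Pool.Agent.H719R3.BA

open Pool.Agent.H719R3.BK
open Pool.Agent.H719R2.PIR (val_eval_le val_eval_sub)

variable {K : Type*} [Field K] {φ : ℂ →+* K} {R R' : ℂ[X]} {n : ℕ} {t : ℤ → K}
  {Γ₀ : Type*} [LinearOrderedCommGroupWithZero Γ₀] {w : Valuation K Γ₀}

/-- States, on either side. -/
def Sta (φ : ℂ →+* K) (w : Valuation K Γ₀) (R R' : ℂ[X]) (t : ℤ → K) (J₁ : Γ₀) (i : ℤ) : Prop :=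
  (FinD φ w R R' t i J₁ ∨ FinD φ w R' R (fun j => (t j)⁻¹) i J₁) ∨ ∃ J, J₁ < J ∧
    ((FinD φ w R R' t i J ∨ FinD φ w R' R (fun j => (t j)⁻¹) i J) ∨
      (PolD φ w R R' t i J ∨ PolD φ w R' R (fun j => (t j)⁻¹) i J))

lemma Sta_step (hφ : ∀ c : ℂ, c ≠ 0 → w (φ c) = 1) (hR : Univ R) (hR' : Univ R')
    (H : ChainA φ R R' n t) {i : ℤ} {J₁ : Γ₀} (h : Sta φ w R R' t J₁ i) :
    Sta φ w R R' t J₁ (i + 1) := by
  have f1 : ∀ {J}, FinD φ w R R' t i J → FinD φ w R' R (fun j => (t j)⁻¹) (i + 1) J ∨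
      ∃ J', J < J' ∧ PolD φ w R R' t (i + 1) J' := fun h => finD_step hφ hR hR' H h
  have f2 : ∀ {J}, FinD φ w R' R (fun j => (t j)⁻¹) i J → FinD φ w R R' t (i + 1) J ∨
      ∃ J', J < J' ∧ PolD φ w R' R (fun j => (t j)⁻¹) (i + 1) J' := fun h => by
    have := finD_step hφ hR' hR H.inv h
    simpa only [inv_inv] using this
  have g1 : ∀ {J}, PolD φ w R R' t i J → FinD φ w R' R (fun j => (t j)⁻¹) (i + 1) J ∨
      PolD φ w R R' t (i + 1) J := fun h => polD_step hφ hR hR' H h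
  have g2 : ∀ {J}, PolD φ w R' R (fun j => (t j)⁻¹) i J → FinD φ w R R' t (i + 1) J ∨
      PolD φ w R' R (fun j => (t j)⁻¹) (i + 1) J := fun h => by
    have := polD_step hφ hR' hR H.inv h
    simpa only [inv_inv] using this
  rcases h with (h | h) | ⟨J, hJ, (h | h) | (h | h)⟩
  · rcases f1 h with h | ⟨J', h1, h2⟩
    · exact Or.inl (Or.inr h)
    · exact Or.inr ⟨J', h1, Or.inr (Or.inl h2)⟩
  · rcases f2 h with h | ⟨J', h1, h2⟩
    · exact Or.inl (Or.inl h)
    · exact Or.inr ⟨J', h1, Or.inr (Or.inr h2)⟩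
  · rcases f1 h with h | ⟨J', h1, h2⟩
    · exact Or.inr ⟨J, hJ, Or.inl (Or.inr h)⟩
    · exact Or.inr ⟨J', hJ.trans h1, Or.inr (Or.inl h2)⟩
  · rcases f2 h with h | ⟨J', h1, h2⟩
    · exact Or.inr ⟨J, hJ, Or.inl (Or.inl h)⟩
    · exact Or.inr ⟨J', hJ.trans h1, Or.inr (Or.inr h2)⟩
  · rcases g1 h with h | h
    · exact Or.inr ⟨J, hJ, Or.inl (Or.inr h)⟩
    · exact Or.inr ⟨J, hJ, Or.inr (Or.inl h)⟩
  · rcases g2 h with h | h
    · exact Or.inr ⟨J, hJ, Or.inl (Or.inl h)⟩
    · exact Or.inr ⟨J, hJ, Or.inr (Or.inr h)⟩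

lemma FinD_one (hφ : ∀ c : ℂ, c ≠ 0 → w (φ c) = 1) {i : ℤ} {J : Γ₀}
    (h : FinD φ w R R' t i J) : w (t i) = 1 := by
  obtain ⟨u, hu, -, h, -⟩ := h
  exact wadd_eq h (hφ u hu)

/-- **The trap.** -/
theorem no_start (hφ : ∀ c : ℂ, c ≠ 0 → w (φ c) = 1) (hR : Univ R) (hR' : Univ R')
    (H : ChainA φ R R' n t) {j : ℤ} (hρ : 1 < w (t j)) (hy : w (t (j + 1)) = 1)
    (hY : w (R'.eval₂ φ (t (j + 1))⁻¹ - φ (R'.eval 0)) = (w (t j))⁻¹)
    (hH : w (QA φ R' (t j) (t (j + 1))) * w (t j) ^ 2 ≤ w (DD φ R (t j) (t (j + 1)))) :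
    False := by
  have hN := hR.deg
  have hN' := hR'.deg
  have hx0 : 0 < w (t j) := pos H j
  have hyi : w (t (j + 1))⁻¹ = 1 := by rw [map_inv₀, hy, inv_one]
  have hρi : (w (t j))⁻¹ < 1 := inv_lt_one_of_one_lt₀ hρ
  obtain ⟨v, hv, hv1⟩ := root_value hφ (p := R') (by omega) (s := (t (j + 1))⁻¹) (d := R'.eval 0)
    (by rw [hY]; exact hρi)
  have hvn : 1 < ‖v‖ := by
    by_contra hcon
    push Not at hcon
    have : v = 0 := hR'.inj v 0 hcon (by simp) hv
    rw [this, map_zero, sub_zero, hyi] at hv1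
    exact lt_irrefl _ hv1
  have hp0 : 0 < w (DD φ R (t j) (t (j + 1))) := posP H j
  have hq0 : 0 < w (QA φ R' (t j) (t (j + 1))) := posQ H j
  set ρ := w (t j) with hρdef
  set p := w (DD φ R (t j) (t (j + 1))) with hp
  set q := w (QA φ R' (t j) (t (j + 1))) with hq
  set J₁ := p / (q * ρ ^ 2) with hJ₁
  have hqρ : 0 < q * ρ ^ 2 := mul_pos hq0 (pow_pos hx0 _)
  have hJ1 : 1 ≤ J₁ := (one_le_div₀ hqρ).2 hH
  have hJp : J₁ * (q * ρ ^ 2) = p := div_mul_cancel₀ _ hqρ.ne'
  have hinv : ∀ x : K, w (x⁻¹) = (w x)⁻¹ := fun x => map_inv₀ w x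
  have e0 : w (t j * t (j + 1)) = ρ := by rw [map_mul, hy, mul_one]
  have e1 : w (QA φ R (t j)⁻¹ (t (j + 1))⁻¹) * ρ⁻¹ ^ 2 =
      J₁ * w (DD φ R' (t j)⁻¹ (t (j + 1))⁻¹) := by
    rw [QA_inv, DD_inv _ _ (H.ne _) (H.ne _), map_mul w (_ * _), map_mul w (_ * _), e0, ← hp, ← hq,
      ← hJp]
    have : ρ ^ 2 * ρ⁻¹ ^ 2 = 1 := by rw [← mul_pow, mul_inv_cancel₀ hx0.ne', one_pow]
    calc ρ * (J₁ * (q * ρ ^ 2)) * ρ⁻¹ ^ 2 = ρ * J₁ * q * (ρ ^ 2 * ρ⁻¹ ^ 2) := by ac_rfl
      _ = J₁ * (ρ * q) := by rw [this, mul_one]; ac_rfl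
  have hstart : FinD φ w R R' t (j + 1) J₁ := by
    have := to_finE hφ hR' hR H.inv (i := j) (u := 0) (e := v) (J := J₁) (d := ρ⁻¹) hJ1
      (inv_pos.2 hx0) e1 hY hv hvn hv1
    simpa only [inv_inv] using this
  have hall : ∀ m : ℕ, Sta φ w R R' t J₁ (j + 1 + m) := by
    intro m
    induction m with
    | zero => rw [Nat.cast_zero, add_zero]; exact Or.inl (Or.inl hstart)
    | succ m ih =>
      have := Sta_step hφ hR hR' H ih
      push_cast
      rw [show j + 1 + ((m : ℤ) + 1) = j + 1 + m + 1 by ring]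
      exact this
  have hn := H.hn
  have hlast := hall (n - 1)
  rw [Nat.cast_sub hn, Nat.cast_one, show j + 1 + ((n : ℤ) - 1) = j + n by ring] at hlast
  have hper := H.per j
  have hper1 : t (j + n + 1) = t (j + 1) := by
    rw [show j + (n : ℤ) + 1 = j + 1 + n by ring, H.per]
  have hnf : ∀ J, ¬ (FinD φ w R R' t (j + n) J ∨ FinD φ w R' R (fun j => (t j)⁻¹) (j + n) J) := by
    rintro J (h | h)
    · have := FinD_one hφ h
      rw [hper] at this
      exact hρ.ne' this
    · have := FinD_one hφ h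
      simp only [hper, hinv] at this
      rw [← hρdef] at this
      exact hρi.ne this
  rcases hlast with h | ⟨J, hJ, h | (h | h)⟩
  · exact hnf _ h
  · exact hnf _ h
  · have := h.1
    rw [hper] at this
    exact absurd this (not_lt.2 hρ.le)
  · obtain ⟨-, h1, -⟩ := h
    simp only [hper, hper1] at h1
    rw [hinv (t j), ← hρdef, e1] at h1
    have h2 : 0 < w (DD φ R' (t j)⁻¹ (t (j + 1))⁻¹) := posP H.inv j
    exact hJ.ne (mul_right_cancel₀ h2.ne' h1)

/-- The normalised ratio. -/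
noncomputable def hh (φ : ℂ →+* K) (R R' : ℂ[X]) (x y : K) : K :=
  QA φ R' x y * x ^ (R.natDegree + 1) / DD φ R x y

open Classical in
/-- The value of a neighbour. -/
noncomputable def ff (w : Valuation K Γ₀) (N : ℕ) (x y : K) : K :=
  if w y = 1 then -1 else y / x * BK.GG N (y / x)

lemma lead_ne (hR : Univ R) : R.leadingCoeff ≠ 0 := by
  rw [Ne, leadingCoeff_eq_zero]
  rintro rfl
  have := hR.deg
  simp at this

lemma DD_lead (hφ : ∀ c : ℂ, c ≠ 0 → w (φ c) = 1) (hR : Univ R) {x y : K} (hx0 : x ≠ 0)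
    (hx : 1 < w x) (hy : w y ≤ w x) :
    w (DD φ R x y / x ^ (R.natDegree - 1) - φ R.leadingCoeff * BK.GG R.natDegree (y / x)) < 1 := by
  have h0 := SS_lead (φ := φ) hφ hR.deg R.coeff hx hy le_rfl
  have hx0' : 0 < w x := lt_trans zero_lt_one hx
  set N := R.natDegree with hN
  have h1 : ∑ i ∈ range N, y ^ i * x ^ (N - 1 - i) = x ^ (N - 1) * BK.GG N (y / x) := by
    unfold BK.GG
    rw [mul_sum]
    refine sum_congr rfl fun i hi => ?_
    have hi' := mem_range.1 hi
    have : x ^ (N - 1) = x ^ (N - 1 - i) * x ^ i := by rw [← pow_add]; congr 1; omega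
    rw [this, div_pow]
    field_simp
  have hxN : x ^ (N - 1) ≠ 0 := pow_ne_zero _ hx0
  have e : DD φ R x y / x ^ (N - 1) - φ R.leadingCoeff * BK.GG N (y / x) =
      (SS φ N R.coeff y x - φ (R.coeff N) * ∑ i ∈ range N, y ^ i * x ^ (N - 1 - i)) /
        x ^ (N - 1) := by
    rw [h1, DD_comm]
    unfold DD
    rw [← hN]
    have : R.leadingCoeff = R.coeff N := rfl
    rw [this]
    field_simp
  rw [e, map_div₀, map_pow]
  rw [div_lt_one₀ (pow_pos hx0' _)]
  exact h0

/-- Divided differences near `0`. -/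
lemma DD_zero (hφ : ∀ c : ℂ, c ≠ 0 → w (φ c) = 1) {x y : K} (hx : w x < 1) (hy : w y < 1) :
    w (DD φ R x y - φ ((derivative R).eval 0)) < 1 := by
  have h1 := SS_cong hφ R.natDegree R.coeff (u := 0) (v := 0) (x := x) (y := y)
    (by simpa using hx) (by simpa using hy)
  have h2 := DD_diag (RingHom.id ℂ) R 0
  unfold DD at h2
  rw [h2] at h1
  exact h1

lemma mul_cong_of_le {x y z : K} (hz : w z ≤ 1) (h : w (x - y) < 1) : w (z * x - z * y) < 1 := by
  rw [← mul_sub, map_mul]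
  calc w z * w (x - y) ≤ 1 * w (x - y) := by gcongr
    _ < 1 := by rw [one_mul]; exact h

lemma nb_class (hφ : ∀ c : ℂ, c ≠ 0 → w (φ c) = 1) (hR : Univ R) (hR' : Univ R') {x y : K}
    (hx : 1 < w x) (hy0 : y ≠ 0) (hxy : w y ≤ w x) (hP : DD φ R x y ≠ 0) :
    1 < w (hh φ R R' x y) ∨
    (w y = 1 ∧ w (R'.eval₂ φ y⁻¹ - φ (R'.eval 0)) = (w x)⁻¹ ∧ w (hh φ R R' x y) ≤ 1) ∨
    ((w y = 1 ∨ w y = w x) ∧ w (hh φ R R' x y) = 1 ∧ w (ff w R.natDegree x y) ≤ 1 ∧
      w (hh φ R R' x y * ff w R.natDegree x y * φ R.leadingCoeff -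
        φ ((derivative R').eval 0)) < 1) := by
  have hx0' : 0 < w x := lt_trans zero_lt_one hx
  have hx0 : x ≠ 0 := (Valuation.ne_zero_iff w).1 hx0'.ne'
  have hyp : 0 < w y := zero_lt_iff.2 ((Valuation.ne_zero_iff w).2 hy0)
  have hxi : w x⁻¹ < 1 := by rw [map_inv₀]; exact inv_lt_one_of_one_lt₀ hx
  have hA : w (φ R.leadingCoeff) = 1 := hφ _ (lead_ne hR)
  have hB : w (φ ((derivative R').eval 0)) = 1 := hφ _ (hR'.der 0 (by simp))
  have hlead := DD_lead hφ hR hx0 hx hxy
  set N := R.natDegree with hN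
  set ph := DD φ R x y / x ^ (N - 1) with hph
  set A := φ R.leadingCoeff
  set B := φ ((derivative R').eval 0) with hBdef
  have hxN : x ^ (N - 1) ≠ 0 := pow_ne_zero _ hx0
  have hN2 := hR.deg
  rw [← hN] at hN2
  have hph0 : ph ≠ 0 := div_ne_zero hP hxN
  have hpow : x ^ (N + 1) = x ^ (N - 1) * x ^ 2 := by rw [← pow_add]; congr 1; omega
  -- `h p̂ = Q x²`
  have key : hh φ R R' x y * ph = QA φ R' x y * x ^ 2 := by
    unfold hh
    rw [← hN, hph, hpow]
    field_simp
  set h := hh φ R R' x y with hh_def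
  have hsle : w (y / x) ≤ 1 := by
    rw [map_div₀]; exact (div_le_one₀ hx0').2 hxy
  -- the product with the divided difference
  have key2 : h * ph * (y / x) = DD φ R' x⁻¹ y⁻¹ := by
    rw [key, DD_inv _ _ hx0 hy0]
    field_simp
  -- the case of a smaller neighbour
  have hsmall : w y < w x → w (ph - A) < 1 ∧ w ph = 1 ∧ w (1 - y / x) = 1 := by
    intro hlt
    have hs : w (y / x) < 1 := by
      rw [map_div₀]; exact (div_lt_one₀ hx0').2 hlt
    have hG : w (BK.GG N (y / x) - φ (BK.GG N 0)) < 1 :=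
      GG_cong hφ (by rw [map_zero, sub_zero]; exact hs)
    have hG0 : BK.GG N (0 : ℂ) = 1 := by
      unfold BK.GG
      obtain ⟨m, hm⟩ : ∃ m, N = m + 1 := ⟨N - 1, by omega⟩
      rw [hm, sum_range_succ']
      simp
    rw [hG0, map_one] at hG
    have h1 : w (ph - A) < 1 := by
      have e : ph - A = (ph - A * BK.GG N (y / x)) + (A * BK.GG N (y / x) - A * 1) := by ring
      rw [e]
      exact Valuation.map_add_lt w hlead (mul_cong_of_le hA.le hG)
    refine ⟨h1, wadd_eq h1 hA, ?_⟩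
    rw [Valuation.map_sub_eq_of_lt_left]
    · simp
    · rw [map_one]; exact hs
  -- the relation with `Y`
  set θ := DD φ R' x⁻¹ 0 with hθ
  set η := x * (R'.eval₂ φ y⁻¹ - φ (R'.eval 0)) with hη
  have hθB : w (θ - B) < 1 := DD_zero hφ hxi (by simp)
  have hθ1 : w θ = 1 := wadd_eq hθB hB
  have key3 : h * ph * (1 - y / x) = η - θ := by
    have h1 := QA_sub φ R' hx0 hy0
    have h2 := DD_sub φ R' x⁻¹ 0
    have h3 : R'.eval₂ φ 0 = φ (R'.eval 0) := by
      rw [← map_zero φ, eval₂_at_apply]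
    rw [sub_zero, h3, ← hθ] at h2
    have h4 : θ = x * (R'.eval₂ φ x⁻¹ - φ (R'.eval 0)) := by
      rw [← h2]; field_simp
    rw [key, h4, hη]
    have h5 : QA φ R' x y * x ^ 2 * (1 - y / x) = x * ((x - y) * QA φ R' x y) := by
      field_simp
    rw [h5]
    linear_combination (-x) * h1
  have hηval : w η = w x * w (R'.eval₂ φ y⁻¹ - φ (R'.eval 0)) := by rw [hη, map_mul]
  rcases lt_or_eq_of_le hxy with hlt | heq
  · obtain ⟨s1, s2, s3⟩ := hsmall hlt
    have hval : w h = w (η - θ) := by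
      rw [← key3, map_mul, map_mul, s2, s3, mul_one, mul_one]
    rcases lt_trichotomy (w y) 1 with hy | hy | hy
    · left
      have hyi : 1 < w y⁻¹ := by rw [map_inv₀]; exact (one_lt_inv₀ hyp).2 hy
      have h1 := eval_big hφ hR' hyi
      have h2 : 1 < w y⁻¹ ^ R'.natDegree := one_lt_pow₀ hyi (by have := hR'.deg; omega)
      have h3 : w (R'.eval₂ φ y⁻¹ - φ (R'.eval 0)) = w y⁻¹ ^ R'.natDegree := by
        rw [Valuation.map_sub_eq_of_lt_left, h1]
        rw [h1]; exact (wphi_le hφ _).trans_lt h2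
      have h4 : 1 < w η := by
        rw [hηval, h3]
        exact one_lt_mul hx.le h2
      rw [hval, Valuation.map_sub_eq_of_lt_left]
      · exact h4
      · rw [hθ1]; exact h4
    · rcases lt_trichotomy (w η) 1 with he | he | he
      · right; right
        have h1 : w h = 1 := by
          rw [hval, Valuation.map_sub_eq_of_lt_right, hθ1]
          rw [hθ1]; exact he
        have hff : ff w N x y = -1 := by unfold ff; rw [if_pos hy]
        refine ⟨Or.inl hy, h1, ?_, ?_⟩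
        · rw [hff, Valuation.map_neg, map_one]
        · rw [hff]
          -- `h ph (1 - y/x) ≡ -B`
          have hs : w (y / x) < 1 := by
            rw [map_div₀]; exact (div_lt_one₀ hx0').2 hlt
          have h2 : w (h * (ph - A)) < 1 := by rw [map_mul, h1, one_mul]; exact s1
          have h3 : w (h * ph * (y / x)) < 1 := by
            rw [map_mul, map_mul, h1, s2, one_mul, one_mul]; exact hs
          have e : h * -1 * A - B = h * (ph - A) - h * ph * (y / x) - (h * ph * (1 - y / x)) -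
            B := by ring
          rw [e, key3]
          have e2 : h * (ph - A) - h * ph * (y / x) - (η - θ) - B =
            (h * (ph - A) - h * ph * (y / x)) + ((θ - B) - η) := by ring
          rw [e2]
          exact Valuation.map_add_lt w (Valuation.map_sub_lt w h2 h3)
            (Valuation.map_sub_lt w hθB he)
      · right; left
        refine ⟨hy, ?_, ?_⟩
        · rw [hηval] at he
          exact (eq_inv_of_mul_eq_one_right he)
        · rw [hval]; exact Valuation.map_sub_le w he.le hθ1.le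
      · left
        rw [hval, Valuation.map_sub_eq_of_lt_left]
        · exact he
        · rw [hθ1]; exact he
    · left
      have hyi : w y⁻¹ < 1 := by rw [map_inv₀]; exact inv_lt_one_of_one_lt₀ hy
      have h1 := wadd_eq (DD_zero (R := R') hφ hxi hyi) hB
      rw [← key2, map_mul, map_mul, s2, mul_one, map_div₀] at h1
      have h2 : w h = w x / w y := by
        rw [eq_inv_of_mul_eq_one_left h1, inv_div]
      rw [h2]
      exact (one_lt_div₀ hyp).2 hlt
  · -- plateau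
    have hyi : w y⁻¹ < 1 := by rw [map_inv₀, heq]; exact inv_lt_one_of_one_lt₀ hx
    have hδ := DD_zero (R := R') hφ hxi hyi
    have hs1 : w (y / x) = 1 := by rw [map_div₀, heq, div_self hx0'.ne']
    rcases lt_or_ge 1 (w h) with h1 | h1
    · exact Or.inl h1
    · right; right
      have hphle : w ph ≤ 1 := by
        have e : ph = (ph - A * BK.GG N (y / x)) + A * BK.GG N (y / x) := by ring
        rw [e]
        refine Valuation.map_add_le w hlead.le ?_
        rw [map_mul, hA, one_mul]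
        exact GG_le hsle
      have h2 := wadd_eq hδ hB
      rw [← key2, map_mul, map_mul, hs1, mul_one] at h2
      have h3 : w h = 1 := by
        refine le_antisymm h1 ?_
        by_contra hcon
        push Not at hcon
        have : w h * w ph < 1 := by
          calc w h * w ph ≤ w h * 1 := by gcongr
            _ < 1 := by rw [mul_one]; exact hcon
        exact this.ne h2
      have hyne : w y ≠ 1 := by rw [heq]; exact hx.ne'
      have hff : ff w N x y = y / x * BK.GG N (y / x) := by unfold ff; rw [if_neg hyne]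
      refine ⟨Or.inr heq, h3, ?_, ?_⟩
      · rw [hff, map_mul, hs1, one_mul]; exact GG_le hsle
      · rw [hff]
        have h4 : w (h * (y / x) * (ph - A * BK.GG N (y / x))) < 1 := by
          rw [map_mul, map_mul, h3, hs1, one_mul, one_mul]; exact hlead
        have e : h * (y / x * BK.GG N (y / x)) * A - B =
          (h * ph * (y / x) - B) - h * (y / x) * (ph - A * BK.GG N (y / x)) := by ring
        rw [e, key2]
        exact Valuation.map_sub_lt w hδ h4

/-- The reflection law at a vertex of maximal size. -/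
theorem max_lawA (hφ : ∀ c : ℂ, c ≠ 0 → w (φ c) = 1) (hR : Univ R) (hR' : Univ R')
    (H : ChainA φ R R' n t) {j : ℤ} (hρ : 1 < w (t j)) (hB : ∀ i, w (t i) ≤ w (t j)) :
    (w (t (j - 1)) = 1 ∨ w (t (j - 1)) = w (t j)) ∧
    (w (t (j + 1)) = 1 ∨ w (t (j + 1)) = w (t j)) ∧
    w (ff w R.natDegree (t j) (t (j - 1)) * ff w R.natDegree (t j) (t (j + 1)) -
      φ ((R.natDegree : ℂ) ^ 2)) < 1 := by
  have hN2 := hR.deg
  have hx0' : 0 < w (t j) := lt_trans zero_lt_one hρ
  have hxne := H.ne j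
  -- robust starts are impossible
  have hst : ∀ {t : ℤ → K}, ChainA φ R R' n t → ∀ j, 1 < w (t j) → ¬ (w (t (j + 1)) = 1 ∧
      w (R'.eval₂ φ (t (j + 1))⁻¹ - φ (R'.eval 0)) = (w (t j))⁻¹ ∧
      w (hh φ R R' (t j) (t (j + 1))) ≤ 1) := by
    rintro t H j hρ ⟨h1, h2, h3⟩
    refine no_start hφ hR hR' H hρ h1 h2 ?_
    unfold hh at h3
    have hx0' : 0 < w (t j) := lt_trans zero_lt_one hρ
    rw [map_div₀, div_le_one₀ (posP H j), map_mul, map_pow] at h3
    refine le_trans ?_ h3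
    gcongr
    · exact hρ.le
    · omega
  have hplus := nb_class hφ hR hR' hρ (H.ne (j + 1)) (hB _) (H.P0 j)
  have hPm : DD φ R (t j) (t (j - 1)) ≠ 0 := by
    rw [DD_comm]
    have := H.P0 (j - 1)
    rwa [sub_add_cancel] at this
  have hminus := nb_class hφ hR hR' hρ (H.ne (j - 1)) (hB _) hPm
  have hst1 := hst H j hρ
  have hst2 := hst H.rev (-j) (by rw [neg_neg]; exact hρ)
  rw [show -(-j + 1) = j - 1 by ring, neg_neg] at hst2
  -- the law
  have hdiag := DD_lead hφ hR hxne hρ (le_refl (w (t j)))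
  have hG1 : BK.GG R.natDegree (t j / t j) = (R.natDegree : K) := by
    unfold BK.GG
    rw [div_self hxne]; simp
  rw [hG1] at hdiag
  have hxi : w (t j)⁻¹ < 1 := by rw [map_inv₀]; exact inv_lt_one_of_one_lt₀ hρ
  have hdiagQ := DD_zero (R := R') hφ hxi hxi
  have hA : w (φ R.leadingCoeff) = 1 := hφ _ (lead_ne hR)
  have hBv : w (φ ((derivative R').eval 0)) = 1 := hφ _ (hR'.der 0 (by simp))
  have wN : w (R.natDegree : K) = 1 := by
    have := hφ (R.natDegree : ℂ) (by exact_mod_cast (by omega : R.natDegree ≠ 0))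
    rwa [map_natCast] at this
  set N := R.natDegree with hN
  set A := φ R.leadingCoeff
  set B := φ ((derivative R').eval 0)
  set x := t j with hx
  set y := t (j - 1) with hy
  set z := t (j + 1) with hz
  set p₀ := DD φ R x x / x ^ (N - 1) with hp₀
  set q₀ := DD φ R' x⁻¹ x⁻¹ with hq₀
  have hp₀1 : w p₀ = 1 := wadd_eq hdiag (by rw [map_mul, hA, wN, one_mul])
  have hq₀1 : w q₀ = 1 := wadd_eq hdiagQ hBv
  have hxN : x ^ (N - 1) ≠ 0 := pow_ne_zero _ hxne
  have hpow : x ^ (N + 1) = x ^ (N - 1) * x ^ 2 := by rw [← pow_add]; congr 1; omega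
  have hlaw := H.law j
  rw [← hx, ← hy, ← hz, QA_comm φ R' y x, DD_comm φ R y x] at hlaw
  have hPz : DD φ R x z ≠ 0 := H.P0 j
  have key : hh φ R R' x y * hh φ R R' x z * p₀ ^ 2 = q₀ ^ 2 := by
    unfold hh
    rw [← hN, hp₀, hq₀, DD_inv _ _ hxne hxne, hpow]
    field_simp
    linear_combination hlaw
  set hm := hh φ R R' x y
  set hp := hh φ R R' x z
  have hprod : w hm * w hp = 1 := by
    have := congrArg w key
    rw [map_mul, map_mul, map_pow, map_pow, hp₀1, hq₀1, one_pow, mul_one] at this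
    exact this
  have hm1 : (w y = 1 ∨ w y = w x) ∧ w hm = 1 ∧ w (ff w N x y) ≤ 1 ∧
      w (hm * ff w N x y * A - B) < 1 := by
    rcases hminus with h | h | h
    · exfalso
      have h2 : 1 ≤ w hp := by
        rcases hplus with h' | h' | h'
        · exact h'.le
        · exact absurd h' hst1
        · exact h'.2.1.ge
      have : 1 < w hm * w hp := h.trans_le (le_mul_of_one_le_right' h2)
      exact this.ne' hprod
    · exact absurd h hst2
    · exact h
  have hp1 : (w z = 1 ∨ w z = w x) ∧ w hp = 1 ∧ w (ff w N x z) ≤ 1 ∧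
      w (hp * ff w N x z * A - B) < 1 := by
    rcases hplus with h | h | h
    · exfalso
      rw [hm1.2.1, one_mul] at hprod
      exact h.ne' hprod
    · exact absurd h hst1
    · exact h
  refine ⟨hm1.1, hp1.1, ?_⟩
  obtain ⟨-, hm2, hm3, hm4⟩ := hm1
  obtain ⟨-, hp2, hp3, hp4⟩ := hp1
  set fm := ff w N x y
  set fp := ff w N x z
  -- `hm hp fm fp A² ≡ B²`
  have c1 := cong_mul hm4 hp4 hBv.le hBv.le
  -- `hm hp (A N)² ≡ B²`
  have hAN : w (A * (N : K)) ≤ 1 := by rw [map_mul, hA, wN, one_mul]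
  have c2 := cong_mul hdiag hdiag hAN hAN
  have c3 := cong_mul hdiagQ hdiagQ hBv.le hBv.le
  have hhm : w (hm * hp) ≤ 1 := by rw [map_mul, hprod]
  have c4 := mul_cong_of_le hhm c2
  have e1 : hm * hp * (p₀ * p₀) = q₀ * q₀ := by linear_combination key
  rw [e1] at c4
  have c5 := Valuation.map_sub_lt w c3 c4
  have e3 : hm * fm * A * (hp * fp * A) - B * B -
      (q₀ * q₀ - B * B - (q₀ * q₀ - hm * hp * (A * ↑N * (A * ↑N)))) =
      (hm * hp * (A * A)) * (fm * fp - φ ((N : ℂ) ^ 2)) := by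
    rw [map_pow, map_natCast]; ring
  have c8 := Valuation.map_sub_lt w c1 c5
  rw [e3, map_mul, map_mul, map_mul, hprod, map_mul, hA, one_mul, one_mul, one_mul] at c8
  exact c8

end Pool.Agent.H719R3.BA
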