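import Pool.Agent.H719R3.BA.GlobalA
import Pool.Agent.H719R3.BK.FinB

/-!
# Billiard polygons in domains whose interior map is a polynomial
-/

open Finset Filter Complex Polynomial
open scoped ComplexConjugate

namespace Pool.Agent.H719R3.BA

open Pool.Agent.H719R3.BK Pool.Agent.H719R3.BG
open Pool.Agent.H719R2.PIR (GG gm cst gm_eq gm_ne_zero)

/-- The conjugate polynomial. -/
noncomputable def cj (R : ℂ[X]) : ℂ[X] := R.map (starRingEnd ℂ)

lemma cj_natDegree (R : ℂ[X]) : (cj R).natDegree = R.natDegree :=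
  natDegree_map_eq_of_injective (starRingEnd ℂ).injective R

lemma cj_eval (R : ℂ[X]) (z : ℂ) : (cj R).eval (conj z) = conj (R.eval z) := by
  unfold cj
  rw [eval_map, eval₂_at_apply]

lemma cj_deriv (R : ℂ[X]) : derivative (cj R) = cj (derivative R) := by
  unfold cj
  rw [derivative_map]

lemma cj_univ {R : ℂ[X]} (hR : Univ R) : Univ (cj R) where
  deg := by rw [cj_natDegree]; exact hR.deg
  inj z z' hz hz' h := by
    have e : ∀ z : ℂ, (cj R).eval z = conj (R.eval (conj z)) := fun z => by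
      rw [← cj_eval, Complex.conj_conj]
    rw [e, e] at h
    have h1 := (starRingEnd ℂ).injective h
    have h2 := hR.inj _ _ (by rwa [Complex.norm_conj]) (by rwa [Complex.norm_conj]) h1
    exact (starRingEnd ℂ).injective h2
  der z hz h := by
    have e : (derivative (cj R)).eval z = conj ((derivative R).eval (conj z)) := by
      rw [cj_deriv, ← cj_eval, Complex.conj_conj]
    rw [e, map_eq_zero] at h
    exact hR.der _ (by rwa [Complex.norm_conj]) h

/-- Closed billiard polygons in the parameters. -/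
structure PolygonA (R : ℂ[X]) (n : ℕ) (z : ℤ → ℂ) : Prop where
  per : ∀ j, z (j + n) = z j
  norm : ∀ j, ‖z j‖ = 1
  ne : ∀ j, R.eval (z (j + 1)) ≠ R.eval (z j)
  law : ∀ j, ((R.eval (z j) - R.eval (z (j - 1))) * (R.eval (z (j + 1)) - R.eval (z j)) *
    conj (I * z j * (derivative R).eval (z j)) ^ 2).im = 0

variable {R : ℂ[X]} {n : ℕ}

lemma eval₂_id (R : ℂ[X]) (z : ℂ) : R.eval₂ (RingHom.id ℂ) z = R.eval z := rfl

lemma conj_eval {z : ℂ} (hz : ‖z‖ = 1) : conj (R.eval z) = (cj R).eval z⁻¹ := by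
  rw [← cj_eval, conj_circle hz]

lemma conj_der {z : ℂ} (hz : ‖z‖ = 1) : conj ((derivative R).eval z) =
    z ^ 2 * QA (RingHom.id ℂ) (cj R) z z := by
  have hz0 : z ≠ 0 := by rintro rfl; simp at hz
  unfold QA
  rw [DD_diag, eval₂_id, cj_deriv, ← conj_circle hz, cj_eval, conj_circle hz]
  field_simp

lemma DD_ne {z y : ℂ} (h : R.eval z ≠ R.eval y) : z ≠ y ∧ DD (RingHom.id ℂ) R z y ≠ 0 := by
  have h1 := DD_sub (RingHom.id ℂ) R z y
  rw [eval₂_id, eval₂_id] at h1
  have h2 := sub_ne_zero.2 h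
  rw [← h1] at h2
  exact ⟨sub_ne_zero.1 (left_ne_zero_of_mul h2), right_ne_zero_of_mul h2⟩

lemma QA_ne {z y : ℂ} (hz : ‖z‖ = 1) (hy : ‖y‖ = 1) (h : R.eval z ≠ R.eval y) :
    QA (RingHom.id ℂ) (cj R) z y ≠ 0 := by
  have hz0 : z ≠ 0 := by rintro rfl; simp at hz
  have hy0 : y ≠ 0 := by rintro rfl; simp at hy
  have h1 := QA_sub (RingHom.id ℂ) (cj R) hz0 hy0
  rw [eval₂_id, eval₂_id, ← conj_eval hz, ← conj_eval hy, ← map_sub] at h1
  have h2 : conj (R.eval z - R.eval y) ≠ 0 := by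
    rw [Ne, map_eq_zero]; exact sub_ne_zero.2 h
  rw [← h1] at h2
  exact right_ne_zero_of_mul (neg_ne_zero.1 h2)

lemma PolygonA.alg {z : ℤ → ℂ} (H : PolygonA R n z) (j : ℤ) :
    QA (RingHom.id ℂ) (cj R) (z (j - 1)) (z j) * QA (RingHom.id ℂ) (cj R) (z j) (z (j + 1)) *
      DD (RingHom.id ℂ) R (z j) (z j) ^ 2 =
    DD (RingHom.id ℂ) R (z (j - 1)) (z j) * DD (RingHom.id ℂ) R (z j) (z (j + 1)) *
      QA (RingHom.id ℂ) (cj R) (z j) (z j) ^ 2 := by
  have hz0 : ∀ j, z j ≠ 0 := fun j h => by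
    have := H.norm j
    rw [h] at this
    simp at this
  have e1 := DD_sub (RingHom.id ℂ) R (z j) (z (j - 1))
  have e2 := DD_sub (RingHom.id ℂ) R (z (j + 1)) (z j)
  have f1 := QA_sub (RingHom.id ℂ) (cj R) (hz0 j) (hz0 (j - 1))
  have f2 := QA_sub (RingHom.id ℂ) (cj R) (hz0 (j + 1)) (hz0 j)
  rw [eval₂_id, eval₂_id] at e1 e2 f1 f2
  rw [← conj_eval (H.norm _), ← conj_eval (H.norm _), ← map_sub] at f1 f2
  have hne1 := H.ne (j - 1)
  rw [sub_add_cancel] at hne1
  have d1 := (DD_ne hne1).1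
  have d2 := (DD_ne (H.ne j)).1
  have hl := H.law j
  have hl2 : (R.eval (z j) - R.eval (z (j - 1))) *
      (R.eval (z (j + 1)) - R.eval (z j)) * conj (I * z j * (derivative R).eval (z j)) ^ 2 =
      conj (R.eval (z j) - R.eval (z (j - 1))) *
      conj (R.eval (z (j + 1)) - R.eval (z j)) * (I * z j * (derivative R).eval (z j)) ^ 2 := by
    have h := (Complex.conj_eq_iff_im.2 hl).symm
    generalize I * z j * (derivative R).eval (z j) = V at h ⊢
    rw [map_mul, map_mul, map_pow, Complex.conj_conj] at h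
    exact h
  have hdiag : (derivative R).eval (z j) = DD (RingHom.id ℂ) R (z j) (z j) := by
    rw [DD_diag, eval₂_id]
  rw [← f1, ← f2, ← e1, ← e2, map_mul, map_mul, conj_der (H.norm j), conj_I,
    conj_circle (H.norm j), hdiag] at hl2
  rw [DD_comm _ _ (z j) (z (j - 1)), QA_comm _ _ (z j) (z (j - 1)),
    DD_comm _ _ (z (j + 1)) (z j), QA_comm _ _ (z (j + 1)) (z j)] at hl2
  have hfac : (z j - z (j - 1)) * (z (j + 1) - z j) * z j ^ 2 ≠ 0 :=
    mul_ne_zero (mul_ne_zero (sub_ne_zero.2 d1) (sub_ne_zero.2 d2)) (pow_ne_zero _ (hz0 j))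
  apply mul_left_cancel₀ hfac
  have hI : I ^ 2 = -1 := I_sq
  have hz := hz0 j
  have e3 : (-I * (z j)⁻¹ * (z j ^ 2 * QA (RingHom.id ℂ) (cj R) (z j) (z j)))
      = -I * z j * QA (RingHom.id ℂ) (cj R) (z j) (z j) := by
    field_simp
  rw [e3] at hl2
  linear_combination hl2 - ((z j - z (j - 1)) * (z (j + 1) - z j) * z j ^ 2 * (
    DD (RingHom.id ℂ) R (z (j - 1)) (z j) * DD (RingHom.id ℂ) R (z j) (z (j + 1)) *
      QA (RingHom.id ℂ) (cj R) (z j) (z j) ^ 2 -
    QA (RingHom.id ℂ) (cj R) (z (j - 1)) (z j) *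
      QA (RingHom.id ℂ) (cj R) (z j) (z (j + 1)) *
      DD (RingHom.id ℂ) R (z j) (z j) ^ 2)) * hI

lemma DD_gm (R : ℂ[X]) (f g : ℕ → ℂ) : DD cst R (gm f) (gm g) =
    gm (fun m => DD (RingHom.id ℂ) R (f m) (g m)) := SS_gm _ f g

lemma QA_gm (R : ℂ[X]) (f g : ℕ → ℂ) : QA cst R (gm f) (gm g) =
    gm (fun m => QA (RingHom.id ℂ) R (f m) (g m)) := by
  unfold QA
  rw [gm_inv, gm_inv, DD_gm, ← map_mul, ← map_mul]
  rfl

/-- A sequence of polygons gives a chain over the field of germs. -/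
theorem chain_gmA (hn : 0 < n) {z : ℕ → ℤ → ℂ} (H : ∀ m, PolygonA R n (z m)) :
    ChainA cst R (cj R) n (fun j => gm (fun m => z m j)) := by
  have hz0 : ∀ m j, z m j ≠ 0 := fun m j h => by
    have := (H m).norm j
    rw [h] at this
    simp at this
  refine ⟨hn, ?_, ?_, ?_, ?_, ?_, ?_, ?_⟩
  · intro j
    congr 1
    ext m
    exact (H m).per j
  · exact fun j => gm_ne_zero fun m => hz0 m j
  · intro j c hc
    rw [Pool.Agent.H719R2.PIR.cst_eq, gm_eq] at hc
    obtain ⟨m, hm⟩ := hc.exists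
    rw [← hm]
    exact (H m).norm j
  · intro j hj
    rw [gm_eq] at hj
    obtain ⟨m, hm⟩ := hj.exists
    exact (H m).ne j (by rw [hm])
  · intro j
    rw [DD_gm]
    exact gm_ne_zero fun m => (DD_ne ((H m).ne j).symm).2
  · intro j
    rw [QA_gm]
    exact gm_ne_zero fun m => QA_ne ((H m).norm _) ((H m).norm _) ((H m).ne j).symm
  · intro j
    rw [QA_gm, QA_gm, QA_gm, DD_gm, DD_gm, DD_gm, ← map_pow, ← map_pow, ← map_mul, ← map_mul,
      ← map_mul, ← map_mul]
    congr 1
    ext m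
    exact (H m).alg j

theorem no_sequenceA (hR : Univ R) (hn : 0 < n) {z : ℕ → ℤ → ℂ}
    (H : ∀ m, PolygonA R n (z m)) (hinj : Function.Injective fun m => z m 0) :
    False := by
  have hC := chain_gmA hn H
  have hR' := cj_univ hR
  have hN := hR.deg
  have hr := chain_ratioA hR hR' hC
  choose l hl using hr
  have ht : ∀ c, gm (fun m => z m 0) ≠ cst c := by
    intro c hc
    rw [Pool.Agent.H719R2.PIR.cst_eq, gm_eq] at hc
    have hinf : Set.Infinite {m | z m 0 = c} := by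
      intro hfin
      have h1 : {m | z m 0 = c}ᶜ ∈ hyperfilter ℕ := hfin.compl_mem_hyperfilter
      have h2 := hc.and h1
      obtain ⟨m, h3, h4⟩ := h2.exists
      exact h4 h3
    obtain ⟨m, hm⟩ := hinf.nonempty
    obtain ⟨k, hk, hkm⟩ := (hinf.sdiff (Set.finite_singleton m)).nonempty
    exact hkm (hinj (hk.trans hm.symm))
  have hconst := chain_constA hR hR' hC ht hl
  rw [cj_natDegree] at hconst
  -- relations between points
  have hpt : ∀ j, ∀ᶠ m in (hyperfilter ℕ : Filter ℕ), z m j = l j * z m 0 := by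
    intro j
    have h := hl j
    rw [Pool.Agent.H719R2.PIR.cst_eq, ← map_mul, gm_eq] at h
    exact h
  have hnorm : ∀ j, ‖l j‖ = 1 := by
    intro j
    obtain ⟨m, hm⟩ := (hpt j).exists
    have h1 := (H m).norm j
    rw [hm, norm_mul, (H m).norm 0, mul_one] at h1
    exact h1
  have hstep : l 0 / l 1 = 1 := by
    have h1 := hconst 0
    have e1 : ‖l 0 / l (0 - 1)‖ = 1 := by rw [norm_div, hnorm, hnorm]; norm_num
    have e2 : ‖l 0 / l (0 + 1)‖ = 1 := by rw [norm_div, hnorm, hnorm]; norm_num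
    have g1 := FF_norm_le (N := R.natDegree) e1.le
    have g2 := FF_norm_le (N := R.natDegree) e2.le
    have h2 := congrArg norm h1
    rw [norm_mul, norm_pow, Complex.norm_natCast] at h2
    have hNpos : (0 : ℝ) < R.natDegree := by exact_mod_cast (by omega : 0 < R.natDegree)
    have h3 : (R.natDegree : ℝ) ≤
        ‖l 0 / l (0 + 1) * Pool.Agent.H719R3.BK.GG R.natDegree (l 0 / l (0 + 1))‖ := by
      by_contra hcon
      push Not at hcon
      have h4 : ‖l 0 / l (0 - 1) * Pool.Agent.H719R3.BK.GG R.natDegree (l 0 / l (0 - 1))‖ *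
          ‖l 0 / l (0 + 1) * Pool.Agent.H719R3.BK.GG R.natDegree (l 0 / l (0 + 1))‖ <
            R.natDegree * R.natDegree :=
        calc _ ≤ (R.natDegree : ℝ) *
              ‖l 0 / l (0 + 1) * Pool.Agent.H719R3.BK.GG R.natDegree (l 0 / l (0 + 1))‖ := by
              gcongr
          _ < R.natDegree * R.natDegree := by gcongr
      rw [h2] at h4
      nlinarith
    rw [norm_mul, e2, one_mul] at h3
    exact GG_norm_eq hN e2 h3
  have hl1 : l 1 ≠ 0 := by
    intro h
    have := hnorm 1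
    rw [h, norm_zero] at this
    norm_num at this
  have h01 : l 0 = l 1 := (div_eq_one_iff_eq hl1).1 hstep
  obtain ⟨m, hm0, hm1⟩ := ((hpt 0).and (hpt 1)).exists
  have := (H m).ne 0
  rw [zero_add, hm1, ← h01, ← hm0] at this
  exact this rfl

/-- **Finiteness of billiard polygons.** -/
theorem finite_polygonsA (hR : Univ R) (n : ℕ) (hn : 0 < n) :
    {z : ℤ → ℂ | PolygonA R n z}.Finite := by
  by_contra hinf
  have hex : ∃ j : ℤ, ((fun z : ℤ → ℂ => z j) '' {z | PolygonA R n z}).Infinite := by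
    by_contra hcon
    push Not at hcon
    apply hinf
    have hfin : (Set.pi (Set.univ : Set (Fin n)) fun j : Fin n =>
        ((fun z : ℤ → ℂ => z (j : ℤ)) '' {z | PolygonA R n z})).Finite :=
      Set.Finite.pi fun j => hcon _
    refine Set.Finite.of_injOn (f := fun z : ℤ → ℂ => fun j : Fin n => z (j : ℤ))
      (t := Set.pi (Set.univ : Set (Fin n)) fun j : Fin n =>
        ((fun z : ℤ → ℂ => z (j : ℤ)) '' {z | PolygonA R n z})) ?_ ?_ hfin
    · intro z hz j _
      exact ⟨z, hz, rfl⟩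
    · intro z hz y hy h
      have hper : ∀ {z : ℤ → ℂ}, PolygonA R n z → Function.Periodic z (n : ℤ) :=
        fun hz j => hz.per j
      funext i
      have hn' : (0 : ℤ) < n := by exact_mod_cast hn
      have h3 := Int.emod_nonneg i hn'.ne'
      have h4 := Int.emod_lt_of_pos i hn'
      obtain ⟨m, hm⟩ := Int.eq_ofNat_of_zero_le h3
      have h5 : ∀ {z : ℤ → ℂ}, PolygonA R n z → z i = z m := by
        intro z hz
        rw [← hm, Int.emod_def, mul_comm]
        exact ((hper hz).sub_zsmul_eq (i / n)).symm.trans (by rw [smul_eq_mul])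
      rw [h5 hz, h5 hy]
      exact congrFun h ⟨m, by omega⟩
  obtain ⟨j, hj⟩ := hex
  obtain ⟨f⟩ : Nonempty (ℕ ↪ ((fun z : ℤ → ℂ => z j) '' {z | PolygonA R n z})) :=
    ⟨hj.natEmbedding⟩
  choose z hz hzj using fun m => (f m).2
  refine no_sequenceA hR hn (z := fun m i => z m (i + j)) (fun m => ?_) ?_
  · have H := hz m
    refine ⟨fun i => ?_, fun i => H.norm _, fun i => ?_, fun i => ?_⟩
    · rw [show i + (n : ℤ) + j = i + j + n by ring]; exact H.per _
    · rw [show i + 1 + j = i + j + 1 by ring]; exact H.ne _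
    · rw [show i + 1 + j = i + j + 1 by ring, show i - 1 + j = i + j - 1 by ring]
      exact H.law _
  · intro m k hmk
    simp only [zero_add] at hmk
    have h1 : (f m : ℂ) = f k := by rw [← hzj m, ← hzj k]; exact hmk
    exact f.injective (Subtype.ext h1)

/-- **Birkhoff's conjecture for tables whose interior map is a polynomial.** -/
theorem birkhoff_interior (Ω : Set ℂ) (hΩ : IsOpen Ω) (hc : Convex ℝ Ω)
    (hb : Bornology.IsBounded Ω) (hne : Ω.Nonempty) (hs : StrictConvex ℝ (closure Ω))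
    (R : ℂ[X]) (hinj : Set.InjOn (fun z => R.eval z) (Metric.closedBall 0 1))
    (hder : ∀ z ∈ Metric.closedBall (0 : ℂ) 1, (derivative R).eval z ≠ 0)
    (hf : frontier Ω = (fun z => R.eval z) '' Metric.sphere 0 1)
    (h : (∃ 𝒦 U, CausticCollar Ω 𝒦 U) ∨ ∃ n : ℕ, 0 < n ∧ {P : ℤ → ℂ | Polygon Ω n P}.Infinite) :
    ∃ (c : ℂ) (r : ℝ), 0 < r ∧ frontier Ω = Metric.sphere c r := by
  have hp : CircleParam Ω (fun z => R.eval z) (fun z => (derivative R).eval z) := by
    refine ⟨hf, fun z _ => R.hasDerivAt z, fun z hz => hder z ?_⟩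
    rw [mem_closedBall_zero_iff, hz]
  have hT := table_of_param hΩ hc hb hne hs hp
  have hdeg : R.natDegree ≤ 1 := by
    by_contra hcon
    push Not at hcon
    have hR : Univ R := by
      refine ⟨hcon, fun z z' hz hz' he => ?_, fun z hz => hder z ?_⟩
      · exact hinj (by rwa [mem_closedBall_zero_iff]) (by rwa [mem_closedBall_zero_iff]) he
      · rwa [mem_closedBall_zero_iff]
    have hinf : ∃ n : ℕ, 0 < n ∧ {P : ℤ → ℂ | Polygon Ω n P}.Infinite := by
      rcases h with ⟨𝒦, U, hC⟩ | h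
      · exact exists_infinite hT hC
      · exact h
    obtain ⟨n, hn, hinf⟩ := hinf
    have h1 := infinite_of_infinite hT hp hinf
    refine h1 ((finite_polygonsA hR n hn).subset ?_)
    rintro z ⟨h2, h3, h4, h5⟩
    exact ⟨h2, h3, h4, h5⟩
  obtain ⟨a, b, hab⟩ := exists_eq_X_add_C_of_natDegree_le_one hdeg
  have ha : a ≠ 0 := by
    have := hder 0 (by simp)
    rw [hab] at this
    simpa using this
  refine ⟨b, ‖a‖, norm_pos_iff.2 ha, ?_⟩
  rw [hf, hab]
  ext w
  simp only [eval_add, eval_mul, eval_C, eval_X, Set.mem_image, mem_sphere_iff_norm, sub_zero]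
  constructor
  · rintro ⟨z, hz, rfl⟩
    rw [add_sub_cancel_right, norm_mul, hz, mul_one]
  · intro hw
    refine ⟨(w - b) / a, ?_, ?_⟩
    · rw [norm_div, hw, div_self (norm_ne_zero_iff.2 ha)]
    · field_simp
      ring

end Pool.Agent.H719R3.BA
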