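import Pool.Agent.H719R3.BA.ValA

/-!
# The robust trap for univalent polynomials
-/

open Finset Polynomial

namespace Pool.Agent.H719R3.BA

open Pool.Agent.H719R3.BK
open Pool.Agent.H719R2.PIR (val_eval_le val_eval_sub)

variable {K : Type*} [Field K] {φ : ℂ →+* K} {R R' : ℂ[X]} {n : ℕ} {t : ℤ → K}
  {Γ₀ : Type*} [LinearOrderedCommGroupWithZero Γ₀] {w : Valuation K Γ₀}

/-- Finite vertices of the trap, inside the disc: potential `J`. -/
def FinD (φ : ℂ →+* K) (w : Valuation K Γ₀) (R R' : ℂ[X]) (t : ℤ → K) (i : ℤ) (J : Γ₀) : Prop :=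
  ∃ u : ℂ, u ≠ 0 ∧ ‖u‖ < 1 ∧ w (t i - φ u) < 1 ∧
    w (QA φ R' (t i) (t (i + 1))) * w (t i - φ u) ^ 2 = J * w (DD φ R (t i) (t (i + 1))) ∧ 1 ≤ J

/-- Vertices of the trap near zero: potential `J`. -/
def PolD (φ : ℂ →+* K) (w : Valuation K Γ₀) (R R' : ℂ[X]) (t : ℤ → K) (i : ℤ) (J : Γ₀) : Prop :=
  w (t i) < 1 ∧
    w (QA φ R' (t i) (t (i + 1))) * w (t i) ^ 2 = J * w (DD φ R (t i) (t (i + 1))) ∧
    (w (t i))⁻¹ ^ (R'.natDegree - 1) < J

lemma pos (H : ChainA φ R R' n t) (i : ℤ) : 0 < w (t i) :=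
  zero_lt_iff.2 ((Valuation.ne_zero_iff w).2 (H.ne i))

lemma posP (H : ChainA φ R R' n t) (i : ℤ) : 0 < w (DD φ R (t i) (t (i + 1))) :=
  zero_lt_iff.2 ((Valuation.ne_zero_iff w).2 (H.P0 i))

lemma posQ (H : ChainA φ R R' n t) (i : ℤ) : 0 < w (QA φ R' (t i) (t (i + 1))) :=
  zero_lt_iff.2 ((Valuation.ne_zero_iff w).2 (H.Q0 i))

lemma posD (H : ChainA φ R R' n t) (i : ℤ) : 0 < w (t i - t (i + 1)) :=
  zero_lt_iff.2 ((Valuation.ne_zero_iff w).2 (sub_ne_zero.2 (H.dist i)))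

lemma posu (H : ChainA φ R R' n t) (i : ℤ) {u : ℂ} (hu : ‖u‖ ≠ 1) : 0 < w (t i - φ u) := by
  refine zero_lt_iff.2 ((Valuation.ne_zero_iff w).2 (sub_ne_zero.2 fun h => ?_))
  exact hu (H.nc i u h)

lemma w_dX (R : ℂ[X]) (x y : K) : w (x - y) * w (DD φ R x y) =
    w (R.eval₂ φ x - R.eval₂ φ y) := by
  rw [← map_mul, DD_sub]

lemma w_dY (R : ℂ[X]) {x y : K} (hx : x ≠ 0) (hy : y ≠ 0) : w (x - y) * w (QA φ R x y) =
    w (R.eval₂ φ x⁻¹ - R.eval₂ φ y⁻¹) := by
  rw [← QA_sub φ R hx hy, Valuation.map_neg, map_mul]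

lemma w_inv_sub (hφ : ∀ c : ℂ, c ≠ 0 → w (φ c) = 1) {y : K} {e : ℂ} (he : e ≠ 0)
    (hy : w (y - φ e) < 1) : w y = 1 ∧ w (y⁻¹ - φ e⁻¹) = w (y - φ e) := by
  have hy1 : w y = 1 := wadd_eq hy (hφ _ he)
  refine ⟨hy1, ?_⟩
  have hy0 : y ≠ 0 := by rintro rfl; simp at hy1
  have he0 : φ e ≠ 0 := (map_ne_zero φ).2 he
  have e1 : y⁻¹ - φ e⁻¹ = -((y - φ e) / (y * φ e)) := by
    rw [map_inv₀]; field_simp; ring
  rw [e1, Valuation.map_neg, map_div₀, map_mul, hy1, hφ _ he, one_mul, div_one]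

/-- The next vertex is finite, outside the disc. -/
lemma to_finE (hφ : ∀ c : ℂ, c ≠ 0 → w (φ c) = 1) (hR : Univ R) (hR' : Univ R')
    (H : ChainA φ R R' n t) {i : ℤ} {u e : ℂ} {J d : Γ₀} (hJ : 1 ≤ J) (hd0 : 0 < d)
    (h : w (QA φ R' (t i) (t (i + 1))) * d ^ 2 = J * w (DD φ R (t i) (t (i + 1))))
    (hX : w (R.eval₂ φ (t (i + 1)) - φ (R.eval u)) = d)
    (he : R.eval e = R.eval u) (he1 : 1 < ‖e‖) (hy : w (t (i + 1) - φ e) < 1) :
    FinD φ w R' R (fun j => (t j)⁻¹) (i + 1) J := by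
  have he0 : e ≠ 0 := by rintro rfl; simp at he1; linarith
  obtain ⟨hy1, hyi⟩ := w_inv_sub hφ he0 hy
  have hei : ‖e⁻¹‖ < 1 := by rw [norm_inv]; exact inv_lt_one_of_one_lt₀ he1
  refine ⟨e⁻¹, inv_ne_zero he0, hei, by rw [hyi]; exact hy, ?_, hJ⟩
  simp only
  rw [hyi, DD_inv _ _ (H.ne _) (H.ne _), QA_inv, map_mul w (_ * _), map_mul w (_ * _)]
  set τ := w (t (i + 1) - φ e) with hτ
  -- ramification
  have hram := ramification hφ (p := R) (by have := hR.deg; omega) hy
  rw [he, hX, ← DD_diag, ← hτ] at hram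
  -- `Q` at the vertex
  have hQ1 : w (QA φ R' (t (i + 1)) (t (i + 1))) = 1 := by
    unfold QA
    have h1 := DD_unit hφ hR' hei.le (x := (t (i + 1))⁻¹) (y := (t (i + 1))⁻¹)
      (by rw [hyi]; exact hy) (by rw [hyi]; exact hy)
    rw [map_mul, map_mul, h1, map_inv₀, hy1]; simp
  have hl := congrArg w (H.law (i + 1))
  rw [add_sub_cancel_right] at hl
  simp only [map_mul, map_pow] at hl
  rw [hQ1] at hl
  set q := w (QA φ R' (t i) (t (i + 1)))
  set p := w (DD φ R (t i) (t (i + 1))) with hp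
  set q₁ := w (QA φ R' (t (i + 1)) (t (i + 1 + 1)))
  set p₁ := w (DD φ R (t (i + 1)) (t (i + 1 + 1)))
  set D := w (DD φ R (t (i + 1)) (t (i + 1)))
  have hp0 : 0 < p := posP H i
  have key : p * (J * q₁) = p * (p₁ * τ ^ 2) := by
    calc p * (J * q₁) = (J * p) * q₁ := by ac_rfl
      _ = q * d ^ 2 * q₁ := by rw [h]
      _ = q * (D * τ) ^ 2 * q₁ := by rw [hram]
      _ = (q * q₁ * D ^ 2) * τ ^ 2 := by rw [mul_pow]; ac_rfl
      _ = (p * p₁ * 1 ^ 2) * τ ^ 2 := by rw [hl]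
      _ = p * (p₁ * τ ^ 2) := by rw [one_pow]; ac_rfl
  have key2 := mul_left_cancel₀ hp0.ne' key
  calc w (t (i + 1) * t (i + 1 + 1)) * p₁ * τ ^ 2
      = w (t (i + 1) * t (i + 1 + 1)) * (p₁ * τ ^ 2) := by ac_rfl
    _ = w (t (i + 1) * t (i + 1 + 1)) * (J * q₁) := by rw [key2]
    _ = J * (w (t (i + 1) * t (i + 1 + 1)) * q₁) := by ac_rfl

/-- Sizes at a vertex near zero. -/
lemma diag_zero (hφ : ∀ c : ℂ, c ≠ 0 → w (φ c) = 1) (hR : Univ R) (hR' : Univ R') {y : K}
    (hy0 : y ≠ 0) (hy : w y < 1) : w (DD φ R y y) = 1 ∧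
      w (QA φ R' y y) = (w y)⁻¹ ^ (R'.natDegree + 1) := by
  have hyp : 0 < w y := zero_lt_iff.2 ((Valuation.ne_zero_iff w).2 hy0)
  refine ⟨DD_unit hφ hR (u := 0) (by simp) (by simpa using hy) (by simpa using hy), ?_⟩
  unfold QA
  have hyi : 1 < w y⁻¹ := by rw [map_inv₀]; exact (one_lt_inv₀ hyp).2 hy
  have hN := hR'.deg
  rw [map_mul, map_mul, DD_big hφ hR' hyi, map_inv₀]
  obtain ⟨m, hm⟩ : ∃ m, R'.natDegree = m + 1 := ⟨R'.natDegree - 1, by omega⟩
  rw [hm, Nat.add_sub_cancel, pow_succ, pow_succ]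
  ac_rfl

theorem finD_step (hφ : ∀ c : ℂ, c ≠ 0 → w (φ c) = 1) (hR : Univ R) (hR' : Univ R')
    (H : ChainA φ R R' n t) {i : ℤ} {J : Γ₀} (h : FinD φ w R R' t i J) :
    FinD φ w R' R (fun j => (t j)⁻¹) (i + 1) J ∨ ∃ J', J < J' ∧ PolD φ w R R' t (i + 1) J' := by
  obtain ⟨u, hu0, hu1, hx, hQ, hJ⟩ := h
  have hN := hR.deg
  have hN' := hR'.deg
  set x := t i with hxdef
  set y := t (i + 1) with hydef
  have hxne : x ≠ 0 := H.ne i
  have hyne : y ≠ 0 := H.ne (i + 1)
  have hx1 : w x = 1 := wadd_eq hx (hφ _ hu0)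
  set d := w (x - φ u) with hd
  have hd0 : 0 < d := posu H i hu1.ne
  set q := w (QA φ R' x y) with hq
  set p := w (DD φ R x y) with hp
  have hp0 : 0 < p := posP H i
  have hq0 : 0 < q := posQ H i
  have hD0 : 0 < w (x - y) := posD H i
  -- `X` at `x`
  have hXx : w (R.eval₂ φ x - φ (R.eval u)) = d := by
    have h1 := ramification hφ (p := R) (by omega) hx
    rw [← DD_diag, DD_unit hφ hR hu1.le hx hx, one_mul] at h1
    exact h1.symm
  have hpq : p < q := by
    have h1 : p ≤ J * p := le_mul_of_one_le_left' hJ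
    have h2 : q * d ^ 2 < q * 1 := by
      apply mul_lt_mul_of_pos_left _ hq0
      exact pow_lt_one₀ zero_le hx (by norm_num)
    rw [mul_one] at h2
    calc p ≤ J * p := h1
      _ = q * d ^ 2 := hQ.symm
      _ < q := h2
  have hdX := w_dX (w := w) (φ := φ) R x y
  have hdY := w_dY (w := w) (φ := φ) R' hxne hyne
  rw [← hp] at hdX
  rw [← hq] at hdY
  have hxi : w x⁻¹ = 1 := by rw [map_inv₀, hx1, inv_one]
  have hYx : w (R'.eval₂ φ x⁻¹) ≤ 1 := val_eval_le hφ hxi.le _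
  have hXx1 : w (R.eval₂ φ x) ≤ 1 := val_eval_le hφ hx1.le _
  rcases lt_trichotomy (w y) 1 with hy | hy | hy
  · -- near zero
    right
    have hyp : 0 < w y := zero_lt_iff.2 ((Valuation.ne_zero_iff w).2 hyne)
    have hyi : 1 < w y⁻¹ := by rw [map_inv₀]; exact (one_lt_inv₀ hyp).2 hy
    have h1 : w (R'.eval₂ φ x⁻¹ - R'.eval₂ φ y⁻¹) = (w y)⁻¹ ^ R'.natDegree := by
      have h2 := eval_big hφ hR' hyi
      rw [map_inv₀] at h2
      have h3 : 1 < (w y)⁻¹ ^ R'.natDegree := by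
        rw [map_inv₀] at hyi
        exact one_lt_pow₀ hyi (by omega)
      rw [Valuation.map_sub_eq_of_lt_right, h2]
      rw [h2]
      exact hYx.trans_lt h3
    have h2 : w (R.eval₂ φ x - R.eval₂ φ y) = 1 := by
      have e1 : R.eval₂ φ x - R.eval₂ φ y = ((R.eval₂ φ x - φ (R.eval u)) -
          (R.eval₂ φ y - φ (R.eval 0))) + φ (R.eval u - R.eval 0) := by
        rw [map_sub]; ring
      have h3 : R.eval u - R.eval 0 ≠ 0 := by
        intro h4
        exact hu0 (hR.inj u 0 hu1.le (by simp) (sub_eq_zero.1 h4))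
      rw [e1, Valuation.map_add_eq_of_lt_right, hφ _ h3]
      rw [hφ _ h3]
      refine Valuation.map_sub_lt w (by rw [hXx]; exact hx) ?_
      exact val_eval_sub hφ (by simpa using hy) R
    rw [h1] at hdY
    rw [h2] at hdX
    have hqp : q = p * (w y)⁻¹ ^ R'.natDegree := by
      calc q = (w (x - y) * p) * q := by rw [hdX, one_mul]
        _ = p * (w (x - y) * q) := by ac_rfl
        _ = p * (w y)⁻¹ ^ R'.natDegree := by rw [hdY]
    refine ⟨(w y)⁻¹ ^ R'.natDegree, ?_, hy, ?_, ?_⟩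
    · have h3 : p * J < p * (w y)⁻¹ ^ R'.natDegree := by
        rw [← hqp, mul_comm p J, ← hQ]
        calc q * d ^ 2 < q * 1 := by
              apply mul_lt_mul_of_pos_left _ hq0
              exact pow_lt_one₀ zero_le hx (by norm_num)
          _ = q := mul_one _
      exact lt_of_mul_lt_mul_left h3 zero_le
    · obtain ⟨hd1, hd2⟩ := diag_zero hφ hR hR' hyne hy
      have hl := congrArg w (H.law (i + 1))
      rw [add_sub_cancel_right, ← hxdef, ← hydef] at hl
      simp only [map_mul, map_pow] at hl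
      rw [hd1, hd2, ← hq, ← hp, hqp] at hl
      set q₁ := w (QA φ R' y (t (i + 1 + 1)))
      set p₁ := w (DD φ R y (t (i + 1 + 1)))
      have hr0 : 0 < (w y)⁻¹ := by
        rw [map_inv₀] at hyi
        exact lt_trans zero_lt_one hyi
      have epow : (w y)⁻¹ ^ (R'.natDegree + 1) = (w y)⁻¹ ^ R'.natDegree * (w y)⁻¹ :=
        pow_succ _ _
      have h3 : (p * (w y)⁻¹ ^ R'.natDegree) * (q₁ * w y ^ 2) =
          (p * (w y)⁻¹ ^ R'.natDegree) * ((w y)⁻¹ ^ R'.natDegree * p₁) := by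
        have hry : (w y)⁻¹ * w y = 1 := inv_mul_cancel₀ hyp.ne'
        rw [epow] at hl
        generalize (w y)⁻¹ ^ R'.natDegree = S at hl ⊢
        generalize (w y)⁻¹ = r at hl hry
        calc (p * S) * (q₁ * w y ^ 2)
            = (p * S * q₁ * 1 ^ 2) * w y ^ 2 := by
              rw [one_pow, mul_one]; ac_rfl
          _ = (p * p₁ * (S * r) ^ 2) * w y ^ 2 := by rw [hl]
          _ = (p * p₁ * (S * S)) * (r * w y) ^ 2 := by
              rw [mul_pow S r, mul_pow r, sq S]; ac_rfl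
          _ = (p * S) * (S * p₁) := by
              rw [hry, one_pow, mul_one]; ac_rfl
      exact mul_left_cancel₀ (mul_pos hp0 (pow_pos hr0 _)).ne' h3
    · rw [map_inv₀] at hyi
      exact pow_lt_pow_right₀ hyi (by omega)
  · -- finite
    left
    have hyi : w y⁻¹ = 1 := by rw [map_inv₀, hy, inv_one]
    have h1 : w (x - y) * q ≤ 1 := by
      rw [hdY]
      exact Valuation.map_sub_le w hYx (val_eval_le hφ hyi.le _)
    have h2 : w (x - y) * p < d := by
      have h3 : q * (w (x - y) * p) ≤ q * d ^ 2 := by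
        calc q * (w (x - y) * p) = (w (x - y) * q) * p := by ac_rfl
          _ ≤ 1 * p := by gcongr
          _ = p := one_mul _
          _ ≤ J * p := le_mul_of_one_le_left' hJ
          _ = q * d ^ 2 := hQ.symm
      have h4 : w (x - y) * p ≤ d ^ 2 := le_of_mul_le_mul_left h3 hq0
      calc w (x - y) * p ≤ d ^ 2 := h4
        _ = d * d := sq d
        _ < d * 1 := mul_lt_mul_of_pos_left hx hd0
        _ = d := mul_one d
    rw [hdX] at h2
    have h3 : w (R.eval₂ φ y - φ (R.eval u)) = d := by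
      have e1 : R.eval₂ φ y - φ (R.eval u) = (R.eval₂ φ x - φ (R.eval u)) -
        (R.eval₂ φ x - R.eval₂ φ y) := by ring
      rw [e1, Valuation.map_sub_eq_of_lt_left, hXx]
      rw [hXx]; exact h2
    obtain ⟨e, he, hye⟩ := root_value hφ (p := R) (by omega) (s := y) (d := R.eval u)
      (by rw [h3]; exact hx)
    have he1 : 1 < ‖e‖ := by
      by_contra hcon
      push Not at hcon
      have heu : e = u := hR.inj e u hcon hu1.le he
      rw [heu] at hye
      have h4 : p = 1 := DD_unit hφ hR hu1.le hx hye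
      have h5 : q ≤ 1 := by
        rw [hq]
        unfold QA
        rw [map_mul, map_mul, hxi, hyi, one_mul, one_mul]
        have := SS_le (N := R'.natDegree) hφ R'.coeff (le_refl (1 : Γ₀)) hxi.le hyi.le
        rw [one_pow] at this
        exact this
      rw [h4] at hpq
      exact absurd h5 (not_le.2 hpq)
    exact to_finE hφ hR hR' H hJ hd0 hQ h3 he he1 hye
  · -- near infinity
    exfalso
    have hyi : w y⁻¹ ≤ 1 := by rw [map_inv₀]; exact inv_le_one_of_one_le₀ hy.le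
    have h1 : w (x - y) * q ≤ 1 := by
      rw [hdY]
      exact Valuation.map_sub_le w hYx (val_eval_le hφ hyi _)
    have h2 : 1 < w (x - y) * p := by
      rw [hdX]
      have h3 := eval_big hφ hR hy
      have h4 : 1 < w y ^ R.natDegree := one_lt_pow₀ hy (by omega)
      rw [Valuation.map_sub_eq_of_lt_right, h3]
      · exact h4
      · rw [h3]; exact hXx1.trans_lt h4
    have h3 : w (x - y) * p < w (x - y) * q := mul_lt_mul_of_pos_left hpq hD0
    exact absurd (h2.trans (h3.trans_le h1)) (lt_irrefl _)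

theorem polD_step (hφ : ∀ c : ℂ, c ≠ 0 → w (φ c) = 1) (hR : Univ R) (hR' : Univ R')
    (H : ChainA φ R R' n t) {i : ℤ} {J : Γ₀} (h : PolD φ w R R' t i J) :
    FinD φ w R' R (fun j => (t j)⁻¹) (i + 1) J ∨ PolD φ w R R' t (i + 1) J := by
  obtain ⟨hx, hQ, hJ⟩ := h
  have hN := hR.deg
  have hN' := hR'.deg
  set x := t i with hxdef
  set y := t (i + 1) with hydef
  have hxne : x ≠ 0 := H.ne i
  have hyne : y ≠ 0 := H.ne (i + 1)
  have hx0 : 0 < w x := zero_lt_iff.2 ((Valuation.ne_zero_iff w).2 hxne)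
  have hy0 : 0 < w y := zero_lt_iff.2 ((Valuation.ne_zero_iff w).2 hyne)
  set r := (w x)⁻¹ with hr
  have hr1 : 1 < r := (one_lt_inv₀ hx0).2 hx
  have hr0 : 0 < r := lt_trans zero_lt_one hr1
  have hrx : r * w x = 1 := inv_mul_cancel₀ hx0.ne'
  have hxi : 1 < w x⁻¹ := by rw [map_inv₀]; exact hr1
  set q := w (QA φ R' x y) with hq
  set p := w (DD φ R x y) with hp
  have hp0 : 0 < p := posP H i
  have hq0 : 0 < q := posQ H i
  have hD0 : 0 < w (x - y) := posD H i
  have hJ1 : 1 ≤ J := (one_le_pow₀ hr1.le).trans hJ.le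
  -- `q = J r² p`
  have hQ' : q = J * r ^ 2 * p := by
    calc q = q * (r * w x) ^ 2 := by rw [hrx, one_pow, mul_one]
      _ = (q * w x ^ 2) * r ^ 2 := by rw [mul_pow]; ac_rfl
      _ = J * p * r ^ 2 := by rw [hQ]
      _ = J * r ^ 2 * p := by ac_rfl
  have hJr : r ^ (R'.natDegree + 1) < J * r ^ 2 := by
    obtain ⟨m, hm⟩ : ∃ m, R'.natDegree = m + 1 := ⟨R'.natDegree - 1, by omega⟩
    rw [hm, Nat.add_sub_cancel] at hJ
    rw [hm]
    calc r ^ (m + 1 + 1) = r ^ m * r ^ 2 := by rw [← pow_add]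
      _ < J * r ^ 2 := mul_lt_mul_of_pos_right hJ (pow_pos hr0 _)
  have hdX := w_dX (w := w) (φ := φ) R x y
  have hdY := w_dY (w := w) (φ := φ) R' hxne hyne
  rw [← hp] at hdX
  rw [← hq] at hdY
  have hYx : w (R'.eval₂ φ x⁻¹) = r ^ R'.natDegree := by
    rw [eval_big hφ hR' hxi, map_inv₀]
  have hrN : 1 < r ^ R'.natDegree := one_lt_pow₀ hr1 (by omega)
  have hXx : w (R.eval₂ φ x - φ (R.eval 0)) = w x := by
    have h1 := ramification hφ (p := R) (by omega) (s := x) (e := 0) (by simpa using hx)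
    rw [← DD_diag, DD_unit hφ hR (u := 0) (by simp) (by simpa using hx) (by simpa using hx),
      one_mul, map_zero, sub_zero] at h1
    exact h1.symm
  rcases lt_trichotomy (w y) 1 with hy | hy | hy
  · right
    set s := (w y)⁻¹ with hs
    have hs1 : 1 < s := (one_lt_inv₀ hy0).2 hy
    have hs0 : 0 < s := lt_trans zero_lt_one hs1
    have hsy : s * w y = 1 := inv_mul_cancel₀ hy0.ne'
    have hyi : 1 < w y⁻¹ := by rw [map_inv₀]; exact hs1
    have hp1 : p = 1 := DD_unit hφ hR (u := 0) (by simp) (by simpa using hx) (by simpa using hy)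
    rw [hp1, mul_one] at hQ'
    have hqe : q = r * s * w (DD φ R' x⁻¹ y⁻¹) := by
      rw [hq]; unfold QA
      rw [map_mul, map_mul, map_inv₀, map_inv₀]
    have hlt : r < s := by
      by_contra hcon
      push Not at hcon
      have h1 : w (DD φ R' x⁻¹ y⁻¹) ≤ r ^ (R'.natDegree - 1) := by
        apply SS_le hφ R'.coeff hr1.le
        · rw [map_inv₀]
        · rw [map_inv₀]; exact hcon
      have h2 : q ≤ r ^ (R'.natDegree + 1) := by
        obtain ⟨m, hm⟩ : ∃ m, R'.natDegree = m + 1 := ⟨R'.natDegree - 1, by omega⟩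
        rw [hm, Nat.add_sub_cancel] at h1
        rw [hqe, hm]
        calc r * s * w (DD φ R' x⁻¹ y⁻¹) ≤ r * r * r ^ m := by gcongr
          _ = r ^ (m + 1 + 1) := by rw [pow_succ, pow_succ]; ac_rfl
      rw [hQ'] at h2
      exact absurd h2 (not_le.2 hJr)
    have hq2 : q = r * s ^ R'.natDegree := by
      have h1 : w (DD φ R' x⁻¹ y⁻¹) = s ^ (R'.natDegree - 1) := by
        rw [DD_big_lt hφ hR' hyi (by rw [map_inv₀, map_inv₀]; exact hlt), map_inv₀]
      rw [hqe, h1]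
      obtain ⟨m, hm⟩ : ∃ m, R'.natDegree = m + 1 := ⟨R'.natDegree - 1, by omega⟩
      rw [hm, Nat.add_sub_cancel, pow_succ]
      ac_rfl
    have hJs : J * r = s ^ R'.natDegree := by
      have h1 : r * (J * r) = r * s ^ R'.natDegree := by
        calc r * (J * r) = J * r ^ 2 := by rw [sq]; ac_rfl
          _ = r * s ^ R'.natDegree := by rw [← hQ', hq2]
      exact mul_left_cancel₀ hr0.ne' h1
    refine ⟨hy, ?_, ?_⟩
    · obtain ⟨hd1, hd2⟩ := diag_zero hφ hR hR' hyne hy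
      have hl := congrArg w (H.law (i + 1))
      rw [add_sub_cancel_right, ← hxdef, ← hydef] at hl
      simp only [map_mul, map_pow] at hl
      rw [hd1, hd2, ← hq, ← hp, hq2, hp1, ← hs, ← hJs] at hl
      set q₁ := w (QA φ R' y (t (i + 1 + 1)))
      set p₁ := w (DD φ R y (t (i + 1 + 1)))
      have h3 : (r * (J * r)) * (q₁ * w y ^ 2) = (r * (J * r)) * (J * p₁) := by
        have e1 : (s ^ (R'.natDegree + 1)) ^ 2 = (J * r) * (J * r) * s ^ 2 := by
          have epow : s ^ (R'.natDegree + 1) = s ^ R'.natDegree * s := pow_succ _ _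
          rw [epow, ← hJs, mul_pow, sq (J * r)]
        calc (r * (J * r)) * (q₁ * w y ^ 2) = (r * (J * r) * q₁ * 1 ^ 2) * w y ^ 2 := by
              rw [one_pow, mul_one]; ac_rfl
          _ = (1 * p₁ * (s ^ (R'.natDegree + 1)) ^ 2) * w y ^ 2 := by rw [hl]
          _ = (r * (J * r)) * (J * p₁) * (s * w y) ^ 2 := by
              rw [e1, one_mul, mul_pow]; ac_rfl
          _ = (r * (J * r)) * (J * p₁) := by rw [hsy, one_pow, mul_one]
      refine mul_left_cancel₀ (mul_pos hr0 (mul_pos (lt_of_lt_of_le zero_lt_one hJ1) hr0)).ne' h3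
    · have h4 : r * s ^ (R'.natDegree - 1) < r * J := by
        rw [mul_comm r J, hJs]
        obtain ⟨m, hm⟩ : ∃ m, R'.natDegree = m + 1 := ⟨R'.natDegree - 1, by omega⟩
        rw [hm, Nat.add_sub_cancel, pow_succ, mul_comm]
        exact mul_lt_mul_of_pos_left hlt (pow_pos hs0 _)
      exact lt_of_mul_lt_mul_left h4 zero_le
  · left
    have hyi : w y⁻¹ = 1 := by rw [map_inv₀, hy, inv_one]
    have h1 : w (x - y) * q = r ^ R'.natDegree := by
      rw [hdY, Valuation.map_sub_eq_of_lt_left, hYx]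
      rw [hYx]
      exact (val_eval_le hφ hyi.le _).trans_lt hrN
    have h2 : w (x - y) * p < w x := by
      have h3 : (J * r ^ 2) * (w (x - y) * p) < (J * r ^ 2) * w x := by
        calc (J * r ^ 2) * (w (x - y) * p) = w (x - y) * q := by rw [hQ']; ac_rfl
          _ = r ^ R'.natDegree := h1
          _ = r ^ (R'.natDegree + 1) * w x := by rw [pow_succ, mul_assoc, hrx, mul_one]
          _ < (J * r ^ 2) * w x := mul_lt_mul_of_pos_right hJr hx0
      exact lt_of_mul_lt_mul_left h3 zero_le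
    rw [hdX] at h2
    have h3 : w (R.eval₂ φ y - φ (R.eval 0)) = w x := by
      have e1 : R.eval₂ φ y - φ (R.eval 0) = (R.eval₂ φ x - φ (R.eval 0)) -
        (R.eval₂ φ x - R.eval₂ φ y) := by ring
      rw [e1, Valuation.map_sub_eq_of_lt_left, hXx]
      rw [hXx]; exact h2
    obtain ⟨e, he, hye⟩ := root_value hφ (p := R) (by omega) (s := y) (d := R.eval 0)
      (by rw [h3]; exact hx)
    have he1 : 1 < ‖e‖ := by
      by_contra hcon
      push Not at hcon
      have heu : e = 0 := hR.inj e 0 hcon (by simp) he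
      rw [heu, map_zero, sub_zero, hy] at hye
      exact lt_irrefl _ hye
    exact to_finE hφ hR hR' H hJ1 hx0 hQ h3 he he1 hye
  · exfalso
    have hyi : w y⁻¹ ≤ 1 := by rw [map_inv₀]; exact inv_le_one_of_one_le₀ hy.le
    have h1 : w (x - y) * q = r ^ R'.natDegree := by
      rw [hdY, Valuation.map_sub_eq_of_lt_left, hYx]
      rw [hYx]
      exact (val_eval_le hφ hyi _).trans_lt hrN
    have h2 : 1 < w (x - y) * p := by
      rw [hdX]
      have h3 := eval_big hφ hR hy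
      have h4 : 1 < w y ^ R.natDegree := one_lt_pow₀ hy (by omega)
      rw [Valuation.map_sub_eq_of_lt_right, h3]
      · exact h4
      · rw [h3]; exact (val_eval_le hφ hx.le _).trans_lt h4
    have h3 : r ^ R'.natDegree < r ^ R'.natDegree := by
      calc r ^ R'.natDegree ≤ r ^ (R'.natDegree + 1) := pow_le_pow_right₀ hr1.le (by omega)
        _ < J * r ^ 2 := hJr
        _ = J * r ^ 2 * 1 := (mul_one _).symm
        _ ≤ J * r ^ 2 * (w (x - y) * p) := by gcongr
        _ = w (x - y) * q := by rw [hQ']; ac_rfl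
        _ = r ^ R'.natDegree := h1
    exact lt_irrefl _ h3

end Pool.Agent.H719R3.BA
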