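import Pool.Agent.H719R3.BK.Plateau
import Pool.Agent.H719R2.PIR.Place

/-!
# Billiards in curves whose interior map is a polynomial: valuations

`X = R(t)`, `Y = R'(1/t)` with polynomials `R`, `R'`.  `DD R` is the divided difference of `R`,
`QA R'` is minus the divided difference of `Y`.
-/

open Finset Polynomial

namespace Pool.Agent.H719R3.BA

open Pool.Agent.H719R3.BK
open Pool.Agent.H719R2.PIR (val_eval_le val_eval_sub)

variable {K : Type*} [Field K]

/-- The divided difference of a polynomial. -/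
noncomputable def DD (φ : ℂ →+* K) (R : ℂ[X]) (x y : K) : K := SS φ R.natDegree R.coeff x y

/-- Minus the divided difference of `R(1/t)`. -/
noncomputable def QA (φ : ℂ →+* K) (R : ℂ[X]) (x y : K) : K := x⁻¹ * y⁻¹ * DD φ R x⁻¹ y⁻¹

lemma DD_sub (φ : ℂ →+* K) (R : ℂ[X]) (x y : K) :
    (x - y) * DD φ R x y = R.eval₂ φ x - R.eval₂ φ y := by
  unfold DD
  rw [mul_comm, SS_sub, eval₂_eq_sum_range, eval₂_eq_sum_range]

lemma DD_comm (φ : ℂ →+* K) (R : ℂ[X]) (x y : K) : DD φ R x y = DD φ R y x := SS_comm _ _ _ _ _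

lemma QA_comm (φ : ℂ →+* K) (R : ℂ[X]) (x y : K) : QA φ R x y = QA φ R y x := by
  unfold QA; rw [DD_comm, mul_comm x⁻¹]

lemma QA_sub (φ : ℂ →+* K) (R : ℂ[X]) {x y : K} (hx : x ≠ 0) (hy : y ≠ 0) :
    -((x - y) * QA φ R x y) = R.eval₂ φ x⁻¹ - R.eval₂ φ y⁻¹ := by
  rw [← DD_sub]
  unfold QA
  field_simp
  ring

lemma DD_diag (φ : ℂ →+* K) (R : ℂ[X]) (x : K) : DD φ R x x = (derivative R).eval₂ φ x := by
  unfold DD SS
  rw [derivative_apply, sum_over_range _ (fun n => by simp), eval₂_finsetSum]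
  refine sum_congr rfl fun k _ => ?_
  have h1 : ∑ i ∈ range k, x ^ i * x ^ (k - 1 - i) = k * x ^ (k - 1) := by
    rw [sum_congr rfl (g := fun _ => x ^ (k - 1))]
    · rw [sum_const, card_range, nsmul_eq_mul]
    · intro i hi
      have := mem_range.1 hi
      rw [← pow_add]; congr 1; omega
  rw [h1, eval₂_mul, eval₂_C, eval₂_X_pow, map_mul, map_natCast, mul_assoc]

lemma DD_inv (φ : ℂ →+* K) (R : ℂ[X]) {x y : K} (hx : x ≠ 0) (hy : y ≠ 0) :
    DD φ R x⁻¹ y⁻¹ = x * y * QA φ R x y := by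
  unfold QA
  field_simp

lemma QA_inv (φ : ℂ →+* K) (R : ℂ[X]) (x y : K) :
    QA φ R x⁻¹ y⁻¹ = x * y * DD φ R x y := by
  unfold QA
  rw [inv_inv, inv_inv]

/-- A periodic billiard chain over `K`. -/
structure ChainA (φ : ℂ →+* K) (R R' : ℂ[X]) (n : ℕ) (t : ℤ → K) : Prop where
  hn : 0 < n
  per : ∀ j, t (j + n) = t j
  ne : ∀ j, t j ≠ 0
  nc : ∀ j c, t j = φ c → ‖c‖ = 1
  dist : ∀ j, t j ≠ t (j + 1)
  P0 : ∀ j, DD φ R (t j) (t (j + 1)) ≠ 0
  Q0 : ∀ j, QA φ R' (t j) (t (j + 1)) ≠ 0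
  law : ∀ j, QA φ R' (t (j - 1)) (t j) * QA φ R' (t j) (t (j + 1)) * DD φ R (t j) (t j) ^ 2 =
    DD φ R (t (j - 1)) (t j) * DD φ R (t j) (t (j + 1)) * QA φ R' (t j) (t j) ^ 2

variable {φ : ℂ →+* K} {R R' : ℂ[X]} {n : ℕ} {t : ℤ → K}

lemma ChainA.inv (H : ChainA φ R R' n t) : ChainA φ R' R n (fun j => (t j)⁻¹) where
  hn := H.hn
  per j := by rw [H.per j]
  ne j := inv_ne_zero (H.ne j)
  nc j c h := by
    have h1 : t j = φ c⁻¹ := by rw [map_inv₀, ← h, inv_inv]
    have h2 := H.nc j _ h1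
    rw [norm_inv] at h2
    rw [← inv_inv ‖c‖, h2, inv_one]
  dist j h := H.dist j (inv_injective h)
  P0 j := by
    rw [DD_inv _ _ (H.ne _) (H.ne _)]
    exact mul_ne_zero (mul_ne_zero (H.ne _) (H.ne _)) (H.Q0 j)
  Q0 j := by
    rw [QA_inv]
    exact mul_ne_zero (mul_ne_zero (H.ne _) (H.ne _)) (H.P0 j)
  law j := by
    rw [DD_inv _ _ (H.ne _) (H.ne _), DD_inv _ _ (H.ne _) (H.ne _), DD_inv _ _ (H.ne _) (H.ne _),
      QA_inv, QA_inv, QA_inv]
    linear_combination (-(t (j - 1) * t j * (t j * t (j + 1)) * (t j * t j) ^ 2)) * H.law j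

lemma ChainA.rev (H : ChainA φ R R' n t) : ChainA φ R R' n (fun j => t (-j)) where
  hn := H.hn
  per j := by
    have := H.per (-(j + n))
    rw [show -(j + (n : ℤ)) + n = -j by ring] at this
    exact this.symm
  ne j := H.ne _
  nc j := H.nc _
  dist j := by
    rw [show -j = -(j + 1) + 1 by ring]
    exact (H.dist _).symm
  P0 j := by
    rw [DD_comm, show -j = -(j + 1) + 1 by ring]
    exact H.P0 _
  Q0 j := by
    rw [QA_comm, show -j = -(j + 1) + 1 by ring]
    exact H.Q0 _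
  law j := by
    have := H.law (-j)
    rw [show -(j - 1) = -j + 1 by ring, show -(j + 1) = -j - 1 by ring,
      QA_comm _ _ (t (-j + 1)), QA_comm _ _ (t (-j)) (t (-j - 1)),
      DD_comm _ _ (t (-j + 1)), DD_comm _ _ (t (-j)) (t (-j - 1))]
    linear_combination this

/-- Univalent polynomials of degree at least two. -/
structure Univ (R : ℂ[X]) : Prop where
  deg : 2 ≤ R.natDegree
  inj : ∀ z z' : ℂ, ‖z‖ ≤ 1 → ‖z'‖ ≤ 1 → R.eval z = R.eval z' → z = z'
  der : ∀ z : ℂ, ‖z‖ ≤ 1 → (derivative R).eval z ≠ 0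

section val

variable {Γ₀ : Type*} [LinearOrderedCommGroupWithZero Γ₀] {w : Valuation K Γ₀}

lemma SS_cong (hφ : ∀ c : ℂ, c ≠ 0 → w (φ c) = 1) (N : ℕ) (b : ℕ → ℂ) {x y : K} {u v : ℂ}
    (hx : w (x - φ u) < 1) (hy : w (y - φ v) < 1) :
    w (SS φ N b x y - φ (SS (RingHom.id ℂ) N b u v)) < 1 := by
  have hp : ∀ {z : K} {c : ℂ}, w (z - φ c) < 1 → ∀ i : ℕ, w (z ^ i - φ (c ^ i)) < 1 := by
    intro z c hz i
    induction i with
    | zero => simp
    | succ i ih =>
      rw [pow_succ, pow_succ, map_mul]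
      exact cong_mul ih hz (wphi_le hφ _) (wphi_le hφ _)
  unfold SS
  rw [map_sum, ← sum_sub_distrib]
  refine Valuation.map_sum_lt w one_ne_zero fun k _ => ?_
  rw [RingHom.id_apply, map_mul, map_sum]
  refine cong_mul (by simp) ?_ (wphi_le hφ _) ?_
  · rw [← sum_sub_distrib]
    refine Valuation.map_sum_lt w one_ne_zero fun i _ => ?_
    rw [map_mul]
    exact cong_mul (hp hx i) (hp hy _) (wphi_le hφ _) (wphi_le hφ _)
  · refine Valuation.map_sum_le w fun i _ => wphi_le hφ _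

lemma DD_unit (hφ : ∀ c : ℂ, c ≠ 0 → w (φ c) = 1) (hR : Univ R) {x y : K} {u : ℂ} (hu : ‖u‖ ≤ 1)
    (hx : w (x - φ u) < 1) (hy : w (y - φ u) < 1) : w (DD φ R x y) = 1 := by
  have h1 := SS_cong hφ R.natDegree R.coeff hx hy
  have h2 : SS (RingHom.id ℂ) R.natDegree R.coeff u u ≠ 0 := by
    have := DD_diag (RingHom.id ℂ) R u
    unfold DD at this
    rw [this]
    exact hR.der u hu
  exact wadd_eq h1 (hφ _ h2)

/-- Size of the divided difference for large arguments. -/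
lemma DD_big (hφ : ∀ c : ℂ, c ≠ 0 → w (φ c) = 1) (hR : Univ R) {x : K} (hx : 1 < w x) :
    w (DD φ R x x) = w x ^ (R.natDegree - 1) := by
  have hN := hR.deg
  have hb : R.coeff R.natDegree ≠ 0 := by
    rw [coeff_natDegree, Ne, leadingCoeff_eq_zero]
    rintro rfl
    simp at hN
  have h0 := SS_lead (φ := φ) hφ hN R.coeff hx le_rfl le_rfl
  have h1 : ∑ i ∈ range R.natDegree, x ^ i * x ^ (R.natDegree - 1 - i) =
      R.natDegree * x ^ (R.natDegree - 1) := by
    rw [sum_congr rfl (g := fun _ => x ^ (R.natDegree - 1))]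
    · rw [sum_const, card_range, nsmul_eq_mul]
    · intro i hi
      have := mem_range.1 hi
      rw [← pow_add]; congr 1; omega
  have h2 : w ((R.natDegree : K)) = 1 := by
    have := hφ (R.natDegree : ℂ) (by exact_mod_cast (by omega : R.natDegree ≠ 0))
    rwa [map_natCast] at this
  have h3 : w (φ (R.coeff R.natDegree) *
      ∑ i ∈ range R.natDegree, x ^ i * x ^ (R.natDegree - 1 - i)) = w x ^ (R.natDegree - 1) := by
    rw [map_mul, hφ _ hb, one_mul, h1, map_mul, h2, one_mul, map_pow]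
  exact wadd_eq h0 h3

lemma DD_big_lt (hφ : ∀ c : ℂ, c ≠ 0 → w (φ c) = 1) (hR : Univ R) {x y : K} (hy : 1 < w y)
    (hxy : w x < w y) : w (DD φ R x y) = w y ^ (R.natDegree - 1) := by
  have hN := hR.deg
  have hb : R.coeff R.natDegree ≠ 0 := by
    rw [coeff_natDegree, Ne, leadingCoeff_eq_zero]
    rintro rfl
    simp at hN
  exact SS_eq hφ hN hb hy hxy

lemma eval_big (hφ : ∀ c : ℂ, c ≠ 0 → w (φ c) = 1) (hR : Univ R) {x : K} (hx : 1 < w x) :
    w (R.eval₂ φ x) = w x ^ R.natDegree := by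
  have hN := hR.deg
  have hx0 : 0 < w x := lt_trans zero_lt_one hx
  have hb : R.coeff R.natDegree ≠ 0 := by
    rw [coeff_natDegree, Ne, leadingCoeff_eq_zero]
    rintro rfl
    simp at hN
  rw [eval₂_eq_sum_range, sum_range_succ, Valuation.map_add_eq_of_lt_right]
  · rw [map_mul, map_pow, hφ _ hb, one_mul]
  · refine Valuation.map_sum_lt w ?_ fun k hk => ?_
    · rw [map_mul, map_pow, hφ _ hb, one_mul]
      exact (pow_pos hx0 _).ne'
    · rw [map_mul, map_pow, map_mul, map_pow, hφ _ hb, one_mul]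
      calc w (φ (R.coeff k)) * w x ^ k ≤ 1 * w x ^ k := by gcongr; exact wphi_le hφ _
        _ = w x ^ k := one_mul _
        _ < w x ^ R.natDegree := pow_lt_pow_right₀ hx (mem_range.1 hk)

/-- Residues of zeros. -/
lemma root_small {w : Valuation K Γ₀} (hφ : ∀ c : ℂ, c ≠ 0 → w (φ c) = 1) {p : ℂ[X]} (hp : p ≠ 0)
    {s : K} (h : w (p.eval₂ φ s) < 1) : ∃ c : ℂ, p.eval c = 0 ∧ w (s - φ c) < 1 := by
  have hprod := Polynomial.Splits.eq_prod_roots (IsAlgClosed.splits p)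
  have hev : p.eval₂ φ s = φ p.leadingCoeff * (p.roots.map fun c => s - φ c).prod := by
    conv_lhs => rw [hprod]
    rw [eval₂_mul, eval₂_C, Polynomial.eval₂_multiset_prod, Multiset.map_map]
    congr 2
    refine Multiset.map_congr rfl fun c _ => ?_
    simp
  have hlc : w (φ p.leadingCoeff) = 1 := hφ _ (leadingCoeff_ne_zero.2 hp)
  rw [hev, map_mul, hlc, one_mul] at h
  by_contra hcon
  push Not at hcon
  have : 1 ≤ w (p.roots.map fun c => s - φ c).prod := by
    rw [map_multiset_prod, Multiset.map_map]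
    refine Multiset.one_le_prod_of_one_le ?_
    intro x hx
    obtain ⟨c, hc, rfl⟩ := Multiset.mem_map.1 hx
    exact hcon c ((mem_roots'.1 hc).2)
  exact absurd h (not_lt.2 this)

lemma root_value {w : Valuation K Γ₀} (hφ : ∀ c : ℂ, c ≠ 0 → w (φ c) = 1) {p : ℂ[X]}
    (hp : 1 ≤ p.natDegree) {s : K} {d : ℂ} (h : w (p.eval₂ φ s - φ d) < 1) :
    ∃ c : ℂ, p.eval c = d ∧ w (s - φ c) < 1 := by
  have hne : p - C d ≠ 0 := by
    intro h0
    have : p = C d := sub_eq_zero.1 h0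
    rw [this, natDegree_C] at hp
    omega
  obtain ⟨c, h1, h2⟩ := root_small hφ hne (s := s) (by rwa [eval₂_sub, eval₂_C])
  refine ⟨c, ?_, h2⟩
  rw [eval_sub, eval_C] at h1
  exact sub_eq_zero.1 h1

/-- Ramification: `w(p'(t)) w(t - e) = w(p(t) - p(e))` if `t` is close to `e`. -/
lemma ramification (hφ : ∀ c : ℂ, c ≠ 0 → w (φ c) = 1) {p : ℂ[X]} (hp : 1 ≤ p.natDegree)
    {s : K} {e : ℂ} (h : w (s - φ e) < 1) :
    w ((derivative p).eval₂ φ s) * w (s - φ e) = w (p.eval₂ φ s - φ (p.eval e)) := by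
  set g := p - C (p.eval e) with hg
  have hg0 : g ≠ 0 := by
    intro h0
    have : p = C (p.eval e) := sub_eq_zero.1 h0
    rw [this, natDegree_C] at hp
    omega
  obtain ⟨q, hq, hq'⟩ := exists_eq_pow_rootMultiplicity_mul_and_not_dvd g hg0 e
  have hroot : g.IsRoot e := by rw [IsRoot.def, hg, eval_sub, eval_C, sub_self]
  have hm : 0 < rootMultiplicity e g := (rootMultiplicity_pos hg0).2 hroot
  obtain ⟨m, hm'⟩ : ∃ m, rootMultiplicity e g = m + 1 := ⟨_, (Nat.succ_pred_eq_of_pos hm).symm⟩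
  rw [hm'] at hq
  have hqe : q.eval e ≠ 0 := fun h0 => hq' (dvd_iff_isRoot.2 h0)
  have hder : derivative p = derivative g := by rw [hg, derivative_sub, derivative_C, sub_zero]
  have e1 : p.eval₂ φ s - φ (p.eval e) = (s - φ e) ^ (m + 1) * q.eval₂ φ s := by
    have := congrArg (eval₂ φ s) hq
    rw [hg, eval₂_sub, eval₂_C, eval₂_mul, eval₂_pow, eval₂_sub, eval₂_X, eval₂_C] at this
    exact this
  have e2 : (derivative p).eval₂ φ s =
      (s - φ e) ^ m * ((m + 1 : ℕ) * q.eval₂ φ s + (s - φ e) * (derivative q).eval₂ φ s) := by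
    rw [hder, hq, derivative_mul, derivative_pow, derivative_sub, derivative_X, derivative_C,
      sub_zero, mul_one, eval₂_add, eval₂_mul, eval₂_mul, eval₂_mul, eval₂_pow, eval₂_pow,
      eval₂_sub, eval₂_X, eval₂_C, Nat.add_sub_cancel]
    rw [eval₂_C, map_natCast]
    push_cast
    ring
  have hq1 : w (q.eval₂ φ s) = 1 := wadd_eq (val_eval_sub hφ h q) (hφ _ hqe)
  have hmN : w (((m + 1 : ℕ) : K)) = 1 := by
    have := hφ ((m + 1 : ℕ) : ℂ) (by exact_mod_cast Nat.succ_ne_zero m)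
    rwa [map_natCast] at this
  have hs1 : w s ≤ 1 := by
    have e3 : s = (s - φ e) + φ e := by ring
    rw [e3]; exact Valuation.map_add_le w h.le (wphi_le hφ _)
  have h3 : w (((m + 1 : ℕ) : K) * q.eval₂ φ s + (s - φ e) * (derivative q).eval₂ φ s) = 1 := by
    rw [Valuation.map_add_eq_of_lt_left]
    · rw [map_mul, hmN, hq1, one_mul]
    · rw [map_mul, map_mul, hmN, hq1, one_mul]
      calc w (s - φ e) * w ((derivative q).eval₂ φ s) ≤ w (s - φ e) * 1 := by
            gcongr; exact val_eval_le hφ hs1 _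
        _ < 1 := by rw [mul_one]; exact h
  rw [e1, e2, map_mul, map_mul, map_pow, map_pow, h3, hq1, mul_one, mul_one, pow_succ]

end val

end Pool.Agent.H719R3.BA
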